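import Pool.Agent.Helper90.ROT.Corr

/-!
# The facets not containing a vertex are strongly connected
-/

namespace Rot

open Finset DualGraph

variable {V : Type*} [DecidableEq V]

theorem sum_two_ridges {X e : Finset V} (hX : X.card = 4) (he : e.card = 2) (heX : e ⊆ X)
    (g : ZMod 2) : ∑ T ∈ X.powersetCard 3, (if e ⊆ T then g else 0) = 0 := by
  rw [sum_powersetCard_erase hX]
  have h1 : ∀ x ∈ X, (if e ⊆ X.erase x then g else 0) = if x ∈ X \ e then g else 0 := by
    intro x hx
    have : e ⊆ X.erase x ↔ x ∈ X \ e := by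
      rw [mem_sdiff]
      constructor
      · intro h
        exact ⟨hx, fun h2 => by have := h h2; simp at this⟩
      · rintro ⟨-, h⟩ z hz
        exact mem_erase.2 ⟨fun h2 => h (h2 ▸ hz), heX hz⟩
    simp only [this]
  rw [Finset.sum_congr rfl h1, ← Finset.sum_filter]
  have h2 : X.filter (fun x => x ∈ X \ e) = X \ e := by
    ext x
    rw [mem_filter, mem_sdiff]
    tauto
  rw [h2, sum_const, card_sdiff_of_subset heX, hX, he]
  show (2 : ℕ) • g = 0
  rw [two_smul]
  exact CharTwo.add_self_eq_zero g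

theorem pair_of {K : Finset (Finset V)} (hK : IsNormalPM 3 (K : Set (Finset V)))
    {X T : Finset V} (hX : X ∈ K) (hTX : T ⊆ X) (hT : T.card = 3) :
    ∃ Y ∈ K, Y ≠ X ∧ T ⊆ Y ∧ K.filter (fun Z => T ⊆ Z) = {X, Y} ∧ X ∩ Y = T := by
  obtain ⟨Y, ⟨hY, hne, hTY⟩, hu⟩ := hK.ridge X hX T hTX hT
  refine ⟨Y, hY, hne, hTY, ?_, ?_⟩
  · ext Z
    rw [mem_filter, mem_insert, mem_singleton]
    constructor
    · rintro ⟨h1, h2⟩
      by_cases h3 : Z = X
      · exact Or.inl h3
      · exact Or.inr (hu Z ⟨h1, h3, h2⟩)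
    · rintro (rfl | rfl)
      · exact ⟨hX, hTX⟩
      · exact ⟨hY, hTY⟩
  · exact inter_eq_of_ne (fun B hB => hK.card_facet B hB) hX hY hne.symm hTX hTY hT

theorem compl_const {K : Finset (Finset V)} (hK : IsNormalPM 3 (K : Set (Finset V))) (v : V)
    (hv : ∃ A ∈ K, v ∈ A) (g : Finset V → ZMod 2)
    (hg : ∀ A ∈ K, ∀ B ∈ K, v ∉ A → v ∉ B → (A ∩ B).card = 3 → g A = g B) :
    ∃ κ : ZMod 2, ∀ A ∈ K, v ∉ A → g A = κ := by
  classical
  let gt : Finset V → ZMod 2 := fun A => if v ∈ A then 0 else g A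
  let w : Finset V → ZMod 2 := fun T => ∑ X ∈ K.filter (fun X => T ⊆ X), gt X
  -- the cycle condition
  have hcyc : ∀ e : Finset V, e.card = 2 →
      ∑ T ∈ (ridges K).filter (fun T => e ⊆ T), w T = 0 := by
    intro e he
    have h1 : ∑ T ∈ (ridges K).filter (fun T => e ⊆ T), w T =
        ∑ T ∈ ridges K, ∑ X ∈ K, if (e ⊆ T ∧ T ⊆ X) then gt X else 0 := by
      rw [Finset.sum_filter]
      apply Finset.sum_congr rfl
      intro T hT
      by_cases h1 : e ⊆ T
      · rw [if_pos h1]
        show ∑ X ∈ K.filter (fun X => T ⊆ X), gt X = _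
        rw [Finset.sum_filter]
        apply Finset.sum_congr rfl
        intro B hB
        simp [h1]
      · rw [if_neg h1]
        symm
        apply Finset.sum_eq_zero
        intro B hB
        rw [if_neg (fun h2 => h1 h2.1)]
    rw [h1, Finset.sum_comm]
    apply Finset.sum_eq_zero
    intro X hX
    by_cases heX : e ⊆ X
    · refine Eq.trans ?_ (sum_two_ridges (hK.card_facet X hX) he heX (gt X))
      rw [← Finset.sum_filter, ← Finset.sum_filter]
      apply Finset.sum_congr _ (fun _ _ => rfl)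
      ext T
      rw [mem_filter, mem_filter, Setup.mem_ridges, mem_powersetCard]
      constructor
      · rintro ⟨⟨B', -, -, h3⟩, h4, h5⟩
        exact ⟨⟨h5, h3⟩, h4⟩
      · rintro ⟨⟨h5, h3⟩, h4⟩
        exact ⟨⟨X, hX, h5, h3⟩, h4, h5⟩
    · apply Finset.sum_eq_zero
      intro T _
      rw [if_neg (fun h2 => heX (h2.1.trans h2.2))]
  -- the value beyond the link triangle of a facet
  have hadj : ∀ A ∈ K, ∀ B ∈ K, v ∈ A → v ∈ B → (A ∩ B).card = 3 →
      w (A.erase v) = w (B.erase v) := by
    intro A hA B hB hvA hvB hAB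
    have hvAB : v ∈ A ∩ B := mem_inter.2 ⟨hvA, hvB⟩
    have hce : ((A ∩ B).erase v).card = 2 := by rw [card_erase_of_mem hvAB, hAB]
    have hcA : (A.erase v).card = 3 := by rw [card_erase_of_mem hvA, hK.card_facet A hA]
    have hcB : (B.erase v).card = 3 := by rw [card_erase_of_mem hvB, hK.card_facet B hB]
    have hne : A ≠ B := by
      rintro rfl
      rw [inter_self, hK.card_facet A hA] at hAB
      omega
    have hne' : A.erase v ≠ B.erase v := by
      intro h
      apply hne
      rw [← insert_erase hvA, ← insert_erase hvB, h]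
    have h1 := hcyc ((A ∩ B).erase v) hce
    have h2 : ∑ T ∈ ({A.erase v, B.erase v} : Finset (Finset V)), w T =
        ∑ T ∈ (ridges K).filter (fun T => (A ∩ B).erase v ⊆ T), w T := by
      apply Finset.sum_subset
      · intro T hT
        rw [mem_insert, mem_singleton] at hT
        rw [mem_filter, Setup.mem_ridges]
        rcases hT with rfl | rfl
        · exact ⟨⟨A, hA, erase_subset _ _, hcA⟩, erase_subset_erase v inter_subset_left⟩
        · exact ⟨⟨B, hB, erase_subset _ _, hcB⟩, erase_subset_erase v inter_subset_right⟩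
      · intro T hT hT'
        rw [mem_filter, Setup.mem_ridges] at hT
        obtain ⟨⟨X, hX, hTX, hTc⟩, heT⟩ := hT
        rw [mem_insert, mem_singleton] at hT'
        push Not at hT'
        obtain ⟨Y, hY, hYX, hTY, hfil, hint⟩ := pair_of hK hX hTX hTc
        have hone : ∀ Z ∈ K, T ⊆ Z → v ∈ Z → v ∈ T := by
          intro Z hZ hTZ hvZ
          by_contra hvT
          have h3 : A ∩ B ⊆ Z := by
            intro x hx
            by_cases hxv : x = v
            · rw [hxv]; exact hvZ
            · exact hTZ (heT (mem_erase.2 ⟨hxv, hx⟩))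
          have h4 : T = Z.erase v := by
            apply eq_of_subset_of_card_le
            · intro x hx
              exact mem_erase.2 ⟨fun h => hvT (h ▸ hx), hTZ hx⟩
            · rw [card_erase_of_mem hvZ, hK.card_facet Z hZ, hTc]
          by_cases hZA : Z = A
          · exact hT'.1 (by rw [h4, hZA])
          · obtain ⟨D, -, hD⟩ := hK.ridge A hA (A ∩ B) inter_subset_left hAB
            have h5 := hD Z ⟨hZ, hZA, h3⟩
            have h6 := hD B ⟨hB, hne.symm, inter_subset_right⟩
            exact hT'.2 (by rw [h4, h5, ← h6])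
        show ∑ Z ∈ K.filter (fun Z => T ⊆ Z), gt Z = 0
        rw [hfil, sum_pair hYX.symm]
        show (if v ∈ X then 0 else g X) + (if v ∈ Y then 0 else g Y) = 0
        by_cases hvX : v ∈ X
        · have hvY : v ∈ Y := hTY (hone X hX hTX hvX)
          rw [if_pos hvX, if_pos hvY, add_zero]
        · by_cases hvY : v ∈ Y
          · exact absurd (hTX (hone Y hY hTY hvY)) hvX
          · rw [if_neg hvX, if_neg hvY, hg X hX Y hY hvX hvY (by rw [hint, hTc])]
            exact CharTwo.add_self_eq_zero _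
    rw [← h2, sum_pair hne'] at h1
    have h3 := CharTwo.add_self_eq_zero (w (B.erase v))
    linear_combination h1 - h3
  obtain ⟨A₀, hA₀, hvA₀⟩ := hv
  have hstar : ∀ A ∈ K, v ∈ A → w (A.erase v) = w (A₀.erase v) := by
    intro A hA hvA
    have hch := hK.connected {v} A₀ hA₀ A hA (by simpa using hvA₀) (by simpa using hvA)
    have key : ∀ B, Relation.ReflTransGen (fun X Y : Finset V => Y ∈ (K : Set (Finset V)) ∧
        {v} ⊆ Y ∧ (X ∩ Y).card = 3) A₀ B → B ∈ K ∧ v ∈ B ∧ w (B.erase v) = w (A₀.erase v) := by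
      intro B hB
      induction hB with
      | refl => exact ⟨hA₀, hvA₀, rfl⟩
      | @tail X Y hX hXY ih =>
        obtain ⟨h1, h2, h3⟩ := ih
        have hY : Y ∈ K := hXY.1
        have hvY : v ∈ Y := hXY.2.1 (mem_singleton_self v)
        exact ⟨hY, hvY, (hadj X h1 Y hY h2 hvY hXY.2.2).symm.trans h3⟩
    exact (key A hch).2.2
  refine ⟨w (A₀.erase v), ?_⟩
  -- mixed adjacency
  have hmix : ∀ A ∈ K, ∀ B ∈ K, v ∈ A → v ∉ B → (A ∩ B).card = 3 → g B = w (A₀.erase v) := by
    intro A hA B hB hvA hvB hAB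
    rw [← hstar A hA hvA]
    have h1 : A ∩ B = A.erase v := inter_eq_erase hK.card_facet hA hAB hvA hvB
    have hsub : A.erase v ⊆ B := by rw [← h1]; exact inter_subset_right
    have hc : (A.erase v).card = 3 := by rw [← h1, hAB]
    obtain ⟨Y, hY, hYA, hTY, hfil, hint⟩ := pair_of hK hA (erase_subset v A) hc
    have hne : B ≠ A := fun h => hvB (h ▸ hvA)
    have hBY : B ∈ K.filter (fun Z => A.erase v ⊆ Z) := mem_filter.2 ⟨hB, hsub⟩
    rw [hfil, mem_insert, mem_singleton] at hBY
    have hBY' : B = Y := by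
      rcases hBY with h | h
      · exact absurd h hne
      · exact h
    show g B = ∑ Z ∈ K.filter (fun Z => A.erase v ⊆ Z), gt Z
    rw [hfil, sum_pair hYA.symm]
    show g B = (if v ∈ A then 0 else g A) + (if v ∈ Y then 0 else g Y)
    rw [if_pos hvA, ← hBY', if_neg hvB, zero_add]
  intro B hB hvB
  have hch := hK.connected ∅ A₀ hA₀ B hB (empty_subset _) (empty_subset _)
  have key : ∀ B, Relation.ReflTransGen (fun X Y : Finset V => Y ∈ (K : Set (Finset V)) ∧
      ∅ ⊆ Y ∧ (X ∩ Y).card = 3) A₀ B → B ∈ K ∧ (v ∉ B → g B = w (A₀.erase v)) := by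
    intro B hB
    induction hB with
    | refl => exact ⟨hA₀, fun h => absurd hvA₀ h⟩
    | @tail X Y hX hXY ih =>
      obtain ⟨h1, h2⟩ := ih
      have hY : Y ∈ K := hXY.1
      refine ⟨hY, fun hvY => ?_⟩
      by_cases hvX : v ∈ X
      · exact hmix X h1 Y hY hvX hvY hXY.2.2
      · rw [← hg X h1 Y hY hvX hvY hXY.2.2]
        exact h2 hvX
  exact (key B hch).2 hvB

end Rot
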