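import Pool.Agent.Helper90.ROT.Corr

/-!
# Part B: the potential, the label and the confinement
-/

namespace Rot

open Finset DualGraph

variable {V W : Type*} [DecidableEq V] [DecidableEq W]

theorem zmod2_cases (x : ZMod 2) : x = 0 ∨ x = 1 := by
  revert x; decide

namespace Ctx

variable {K : Set (Finset V)} {L : Set (Finset W)} {Φ : Finset V → Finset W}
  {φ : Finset V → V → W} {v : V}

/-- The crossing function has a potential that vanishes at the base vertex. -/
theorem exists_f (c : Ctx K L Φ φ v) {C : Finset W} (hC : Closed K Φ v C) (o : V) :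
    ∃ f : V → ZMod 2, f o = 0 ∧ IsF K Φ φ v C f := by
  classical
  have hcr : ∀ A ∈ K, C ⊆ Φ A → ∀ p, Piv φ v C A p → ∀ e, e ⊆ A → v ∉ e → e.card = 2 →
      ((∀ B ∈ K, v ∈ B → e ⊆ B → C ⊆ Φ B) ↔ p ∈ e) := by
    intro A hA hCA p hp e heA hve he
    have hv := hC.2.2 A hA hCA
    constructor
    · intro h1
      by_contra hpe
      obtain ⟨B, hB, hAB, hpB⟩ := exists_nb c.hK hA hp.1
      have h2 := inter_eq_erase c.hK.card_facet hA hAB hp.1 hpB
      have hvB : v ∈ B := by
        have : v ∈ A ∩ B := by rw [h2]; exact mem_erase.2 ⟨hp.2.1.symm, hv⟩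
        exact (mem_inter.1 this).2
      have heB : e ⊆ B := by
        intro x hx
        have : x ∈ A ∩ B := by
          rw [h2]; exact mem_erase.2 ⟨fun h => hpe (h ▸ hx), heA hx⟩
        exact (mem_inter.1 this).2
      have h3 := h1 B hB hvB heB
      exact hpB ((c.adj hA hB hAB hp.1).2 (h3 (by rw [hp.2.2]; simp)))
    · intro hpe B hB hvB heB
      by_cases hBA : B = A
      · rw [hBA]; exact hCA
      · -- the two facets share the ridge `insert v e`
        have h4 : (insert v e).card = 3 := by rw [card_insert_of_notMem hve, he]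
        have h5 : insert v e ⊆ A ∩ B := by
          intro x hx
          rw [mem_insert] at hx
          rcases hx with rfl | hx
          · exact mem_inter.2 ⟨hv, hvB⟩
          · exact mem_inter.2 ⟨heA hx, heB hx⟩
        have h6 : (A ∩ B).card = 3 := by
          have h7 := card_le_card h5
          have h8 := c.hK.card_facet A hA
          have h9 : (A ∩ B).card ≠ 4 := by
            intro h10
            apply hBA
            have h11 : A ∩ B = A := eq_of_subset_of_card_le inter_subset_left (by omega)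
            have h12 : A ∩ B = B := eq_of_subset_of_card_le inter_subset_right
              (by rw [c.hK.card_facet B hB]; omega)
            exact h12.symm.trans h11
          have h10 : (A ∩ B).card ≤ A.card := card_le_card inter_subset_left
          omega
        rw [hp.2.2]
        intro x hx
        rw [mem_insert, mem_singleton] at hx
        rcases hx with rfl | rfl
        · exact (c.adj hA hB h6 hv).1 hvB
        · exact (c.adj hA hB h6 hp.1).1 (heB hpe)
  obtain ⟨f, hf⟩ := c.h1 (fun e => if ∀ B ∈ K, v ∈ B → e ⊆ B → C ⊆ Φ B then 1 else 0) (by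
    intro A hA hv
    by_cases hCA : C ⊆ Φ A
    · obtain ⟨p, hp⟩ := c.exists_piv hC hA hCA
      have h1 : ∑ e ∈ (A.erase v).powersetCard 2,
          (if ∀ B ∈ K, v ∈ B → e ⊆ B → C ⊆ Φ B then (1 : ZMod 2) else 0) =
          ∑ e ∈ (A.erase v).powersetCard 2, ∑ z ∈ e, if z = p then 1 else 0 := by
        apply Finset.sum_congr rfl
        intro e he
        rw [mem_powersetCard] at he
        have h2 := hcr A hA hCA p hp e (he.1.trans (erase_subset _ _))
          (fun h => by have := he.1 h; simp at this) he.2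
        rw [Finset.sum_ite_eq' e p]
        simp only [h2]
      rw [h1]
      apply sum_pairs_zero
      rw [card_erase_of_mem hv, c.hK.card_facet A hA]
    · apply Finset.sum_eq_zero
      intro e he
      rw [mem_powersetCard] at he
      rw [if_neg (fun h => hCA (h A hA hv (he.1.trans (erase_subset _ _))))])
  refine ⟨fun x => f x + f o, CharTwo.add_self_eq_zero _, ?_, ?_⟩
  · intro A hA hCA p hp j hj hjv hjp
    have hv := hC.2.2 A hA hCA
    have hsub : ({p, j} : Finset V) ⊆ A.erase v := by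
      intro x hx
      rw [mem_insert, mem_singleton] at hx
      rcases hx with rfl | rfl
      · exact mem_erase.2 ⟨hp.2.1, hp.1⟩
      · exact mem_erase.2 ⟨hjv, hj⟩
    have h1 := hf A hA hv {p, j} (mem_powersetCard.2 ⟨hsub, card_pair hjp.symm⟩)
    rw [sum_pair hjp.symm, if_pos ((hcr A hA hCA p hp {p, j} (hsub.trans (erase_subset _ _))
      (fun h => by have := hsub h; simp at this) (card_pair hjp.symm)).2 (by simp))] at h1
    have h2 := CharTwo.add_self_eq_zero (f o)
    show f p + f o + (f j + f o) = 1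
    rw [h1]
    linear_combination h2
  · intro A hA hv hCA i hi j hj hiv hjv
    show f i + f o = f j + f o
    by_cases hij : i = j
    · rw [hij]
    · have hsub : ({i, j} : Finset V) ⊆ A.erase v := by
        intro x hx
        rw [mem_insert, mem_singleton] at hx
        rcases hx with rfl | rfl
        · exact mem_erase.2 ⟨hiv, hi⟩
        · exact mem_erase.2 ⟨hjv, hj⟩
      have h1 := hf A hA hv {i, j} (mem_powersetCard.2 ⟨hsub, card_pair hij⟩)
      rw [sum_pair hij, if_neg (fun h => hCA (h A hA hv (hsub.trans (erase_subset _ _))))] at h1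
      have h2 := CharTwo.add_self_eq_zero (f j)
      linear_combination (-1 : ZMod 2) * h1 - h2

/-- Chains of facets containing a pair of labels. -/
theorem chain (c : Ctx K L Φ φ v) {C : Finset W} (hC : C.card = 2) {A B : Finset V} (hA : A ∈ K)
    (hB : B ∈ K) (hCA : C ⊆ Φ A) (hCB : C ⊆ Φ B) :
    Relation.ReflTransGen (fun X Y : Finset V => X ∈ K ∧ Y ∈ K ∧ C ⊆ Φ X ∧ C ⊆ Φ Y ∧
      (X ∩ Y).card = 3) A B := by
  have h1 := c.edge C hC (Φ A) (c.hΦ.mem hA) (Φ B) (c.hΦ.mem hB) hCA hCB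
  have key : ∀ B' : Finset W, Relation.ReflTransGen
      (fun X Y : Finset W => Y ∈ L ∧ C ⊆ Y ∧ (X ∩ Y).card = 3) (Φ A) B' →
      ∃ B ∈ K, Φ B = B' ∧ C ⊆ Φ B ∧ Relation.ReflTransGen (fun X Y : Finset V =>
        X ∈ K ∧ Y ∈ K ∧ C ⊆ Φ X ∧ C ⊆ Φ Y ∧ (X ∩ Y).card = 3) A B := by
    intro B' hB'
    induction hB' with
    | refl => exact ⟨A, hA, rfl, hCA, Relation.ReflTransGen.refl⟩
    | tail hbc hcd ih =>
      obtain ⟨X, hX, rfl, hCX, h2⟩ := ih
      obtain ⟨hY, hCY, hXY⟩ := hcd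
      obtain ⟨Y, hY', rfl⟩ := c.hΦ.bij.surjOn hY
      exact ⟨Y, hY', rfl, hCY, h2.tail ⟨hX, hY', hCX, hCY, (c.hΦ.adj X hX Y hY').2 hXY⟩⟩
  obtain ⟨B₁, hB₁, hBB, -, h2⟩ := key _ h1
  have : B₁ = B := c.hΦ.bij.injOn hB₁ hB hBB
  rwa [this] at h2

theorem isY_adj (c : Ctx K L Φ φ v) {C : Finset W} (hC : Closed K Φ v C) {f : V → ZMod 2}
    (hf : IsF K Φ φ v C f) {A B : Finset V} (hA : A ∈ K) (hB : B ∈ K) (hAB : (A ∩ B).card = 3)
    (hCA : C ⊆ Φ A) (hCB : C ⊆ Φ B) {y : W} (hy : IsY φ v C f A y) : IsY φ v C f B y := by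
  obtain ⟨p, hp, hy⟩ := hy
  obtain ⟨q, hq⟩ := c.exists_piv hC hB hCB
  obtain ⟨hpB, hqA, h⟩ := c.piv_adj hC hA hB (hC.2.2 A hA hCA) (hC.2.2 B hB hCB) hAB hCA hCB hp hq
  refine ⟨q, hq, ?_⟩
  rcases h with ⟨h1, h2, rfl⟩ | ⟨h1, h2, hpq⟩
  · rw [← h1, ← h2]; exact hy
  · have h3 := hf.f1 A hA hCA p hp q hqA hq.2.1 hpq.symm
    rw [← h1, ← h2]
    rcases hy with ⟨h4, h5⟩ | ⟨h4, h5⟩
    · right
      rw [h4, zero_add] at h3
      exact ⟨h3, h5⟩
    · left
      rw [h4] at h3
      exact ⟨by linear_combination h3, h5⟩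

/-- There is one label `y` for all facets containing the pair. -/
theorem exists_y (c : Ctx K L Φ φ v) {C : Finset W} (hC : Closed K Φ v C) {f : V → ZMod 2}
    (hf : IsF K Φ φ v C f) : ∃ y ∈ C, ∀ A ∈ K, C ⊆ Φ A → IsY φ v C f A y := by
  obtain ⟨A, hA, hCA⟩ := hC.2.1
  obtain ⟨p, hp⟩ := c.exists_piv hC hA hCA
  have h1 : ∃ y ∈ C, IsY φ v C f A y := by
    rcases zmod2_cases (f p) with h | h
    · exact ⟨φ A v, by rw [hp.2.2]; simp, p, hp, Or.inl ⟨h, rfl⟩⟩
    · exact ⟨φ A p, by rw [hp.2.2]; simp, p, hp, Or.inr ⟨h, rfl⟩⟩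
  obtain ⟨y, hyC, hy⟩ := h1
  refine ⟨y, hyC, ?_⟩
  intro B hB hCB
  have h2 := c.chain hC.1 hA hB hCA hCB
  clear hB hCB
  induction h2 with
  | refl => exact hy
  | tail hbc hcd ih =>
    obtain ⟨h3, h4, h5, h6, h7⟩ := hcd
    exact c.isY_adj hC hf h3 h4 h7 h5 h6 ih

/-- The label is determined. -/
theorem isY_unique (c : Ctx K L Φ φ v) {C : Finset W} {f : V → ZMod 2} {A : Finset V}
    (hA : A ∈ K) (hv : v ∈ A) {p : V} (hp : Piv φ v C A p) {y : W} (hy : IsY φ v C f A y) :
    (f p = 0 ∧ y = φ A v) ∨ (f p = 1 ∧ y = φ A p) := by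
  obtain ⟨q, hq, h⟩ := hy
  have := c.piv_unique hA hv hp hq
  subst this
  exact h

/-- Confinement. -/
theorem confined (c : Ctx K L Φ φ v) {C : Finset W} (hC : Closed K Φ v C) {f : V → ZMod 2}
    (hf : IsF K Φ φ v C f) {y : W} (hy : ∀ A ∈ K, C ⊆ Φ A → IsY φ v C f A y) {A : Finset V}
    (hCA : C ⊆ Φ A) {q : Finset V × W}
    (hq : Relation.ReflTransGen (LK K Φ v) (A, y) q) :
    q.2 = y ∧ (C ⊆ Φ q.1 ∨ ∀ i ∈ q.1, i ≠ v → f i = 1) := by
  induction hq with
  | refl => exact ⟨rfl, Or.inl hCA⟩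
  | @tail P R hP hPR ih =>
    obtain ⟨X, x⟩ := P
    obtain ⟨Y, y'⟩ := R
    obtain ⟨hX, hY, hvX, hvY, hXY, hxy, hxX, hyY⟩ := hPR
    simp only at hX hY hvX hvY hXY hxy hxX hyY ih ⊢
    obtain ⟨hxy', ih⟩ := ih
    have hyy : y' = y := hxy.symm.trans hxy'
    refine ⟨hyy, ?_⟩
    by_cases hCY : C ⊆ Φ Y
    · exact Or.inl hCY
    right
    -- it suffices to find one common link vertex with value 1
    suffices h : ∃ j ∈ X ∩ Y, j ≠ v ∧ f j = 1 by
      obtain ⟨j, hj, hjv, hfj⟩ := h
      intro i hi hiv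
      rw [hf.f2 Y hY hvY hCY i hi j (mem_inter.1 hj).2 hiv hjv, hfj]
    have hvXY : v ∈ X ∩ Y := mem_inter.2 ⟨hvX, hvY⟩
    by_cases hCX : C ⊆ Φ X
    · obtain ⟨p, hp⟩ := c.exists_piv hC hX hCX
      have hpY : p ∉ Y := by
        intro hpY
        apply hCY
        rw [hp.2.2]
        intro z hz
        rw [mem_insert, mem_singleton] at hz
        rcases hz with rfl | rfl
        · exact (c.adj hX hY hXY hvX).1 hvY
        · exact (c.adj hX hY hXY hp.1).1 hpY
      rcases c.isY_unique hX hvX hp (hy X hX hCX) with ⟨h1, h2⟩ | ⟨h1, h2⟩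
      · have h3 : ((X ∩ Y).erase v).Nonempty := by
          rw [← card_pos, card_erase_of_mem hvXY, hXY]; norm_num
        obtain ⟨j, hj⟩ := h3
        rw [mem_erase] at hj
        refine ⟨j, hj.2, hj.1, ?_⟩
        have h4 := hf.f1 X hX hCX p hp j (mem_inter.1 hj.2).1 hj.1 (by
          rintro rfl
          exact hpY (mem_inter.1 hj.2).2)
        rw [h1, zero_add] at h4
        exact h4
      · exfalso
        rw [hyy, h2] at hyY
        exact hpY ((c.adj hX hY hXY hp.1).2 hyY)
    · rcases ih with ih | ih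
      · exact absurd ih hCX
      · have h3 : ((X ∩ Y).erase v).Nonempty := by
          rw [← card_pos, card_erase_of_mem hvXY, hXY]; norm_num
        obtain ⟨j, hj⟩ := h3
        rw [mem_erase] at hj
        exact ⟨j, hj.2, hj.1, ih j (mem_inter.1 hj.2).1 hj.1⟩

end Ctx

end Rot
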