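import Pool.Agent.DualGraph.Local

/-!
# Definitions for the theorem on oriented dual graphs
-/

namespace Rot

open Finset DualGraph

variable {V W : Type*} [DecidableEq V] [DecidableEq W]

/-- All ridges (subsets with three elements) of the facets in `Q`. -/
def ridges (Q : Finset (Finset W)) : Finset (Finset W) := Q.biUnion (fun B => B.powersetCard 3)

/-- The first cohomology group with two-element coefficients of the link of `v` vanishes: a
function on edges whose sum over the three edges of every triangle of the link is zero is a
coboundary. -/
def LinkH1Zero (K : Set (Finset V)) (v : V) : Prop :=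
  ∀ c : Finset V → ZMod 2,
    (∀ A ∈ K, v ∈ A → ∑ e ∈ (A.erase v).powersetCard 2, c e = 0) →
    ∃ f : V → ZMod 2, ∀ A ∈ K, v ∈ A → ∀ e ∈ (A.erase v).powersetCard 2, c e = ∑ x ∈ e, f x

/-- The second homology group with two-element coefficients vanishes: a function on the ridges
(that is, triangles) that has zero sum around every edge is a boundary. -/
def H2Zero (L : Finset (Finset W)) : Prop :=
  ∀ w : Finset W → ZMod 2,
    (∀ e : Finset W, e.card = 2 → ∑ T ∈ (ridges L).filter (fun T => e ⊆ T), w T = 0) →
    ∃ p : Finset W → ZMod 2, ∀ T ∈ ridges L, w T = ∑ B ∈ L.filter (fun B => T ⊆ B), p B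

/-- `o` is an orientation of the `d`-dimensional pseudomanifold `Δ`: a sign for every ordering of
the vertices of every facet, which changes when two vertices are exchanged, and which changes when
one passes from an ordering of a facet to an ordering of an adjacent facet by replacing one
vertex. -/
structure IsOrientation (d : ℕ) (Δ : Set (Finset V)) (o : (Fin (d + 1) → V) → ℤ) : Prop where
  sign : ∀ v, Function.Injective v → Finset.univ.image v ∈ Δ → o v = 1 ∨ o v = -1
  swap : ∀ v, Function.Injective v → Finset.univ.image v ∈ Δ → ∀ i j, i ≠ j →
    o (v ∘ Equiv.swap i j) = - o v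
  glue : ∀ v, Function.Injective v → Finset.univ.image v ∈ Δ → ∀ i x, x ∉ Finset.univ.image v →
    Finset.univ.image (Function.update v i x) ∈ Δ → o (Function.update v i x) = - o v

/-- The sign of `Φ` at the facet `A` is `s`: the orientations of corresponding orderings of the
vertices of `A` and of `Φ A` differ by the factor `s`. -/
def HasSign (K : Set (Finset V)) (Φ : Finset V → Finset W) (oK : (Fin 4 → V) → ℤ)
    (oL : (Fin 4 → W) → ℤ) (A : Finset V) (s : ℤ) : Prop :=
  ∀ t : Fin 4 → V, ∀ u : Fin 4 → W, Function.Injective t → Finset.univ.image t = A →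
    (∀ i, Opp 3 K Φ A (t i) (u i)) → oL u = s * oK t

end Rot
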