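import Pool.Agent.Helper90.ROT.Rank
import Pool.Agent.Helper90.ROT.Defs

/-!
# Part A: the Euler characteristic bound
-/

namespace Rot

open Finset Matrix

variable {W : Type*} [DecidableEq W]

/-- Interior ridges: in exactly two members of `Q`. -/
def inner (Q : Finset (Finset W)) : Finset (Finset W) :=
  (ridges Q).filter (fun T => (Q.filter (fun B => T ⊆ B)).card = 2)

/-- Pairs all of whose facets are in `Q`. -/
def closedPairs (L Q : Finset (Finset W)) : Finset (Finset W) :=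
  (Q.biUnion (fun B => B.powersetCard 2)).filter (fun e => ∀ B ∈ L, e ⊆ B → B ∈ Q)

/-- Adjacency of labelled facets. -/
def LAdj (Q : Finset (Finset W)) (p q : Finset W × W) : Prop :=
  p.1 ∈ Q ∧ q.1 ∈ Q ∧ (p.1 ∩ q.1).card = 3 ∧ p.2 = q.2 ∧ p.2 ∈ p.1 ∧ q.2 ∈ q.1

theorem LAdj.symm {Q : Finset (Finset W)} {p q : Finset W × W} (h : LAdj Q p q) : LAdj Q q p :=
  ⟨h.2.1, h.1, by rw [inter_comm]; exact h.2.2.1, h.2.2.2.1.symm, h.2.2.2.2.2, h.2.2.2.2.1⟩

structure Setup (L Q : Finset (Finset W)) : Prop where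
  card : ∀ B ∈ L, B.card = 4
  ridge : ∀ B ∈ L, ∀ T : Finset W, T ⊆ B → T.card = 3 → ∃! B', B' ∈ L ∧ B' ≠ B ∧ T ⊆ B'
  edge : ∀ e : Finset W, e.card = 2 → ∀ A ∈ L, ∀ B ∈ L, e ⊆ A → e ⊆ B →
    Relation.ReflTransGen (fun X Y : Finset W => Y ∈ L ∧ e ⊆ Y ∧ (X ∩ Y).card = 3) A B
  sub : Q ⊆ L
  ne : Q.Nonempty
  conn : ∀ A ∈ Q, ∀ B ∈ Q,
    Relation.ReflTransGen (fun X Y : Finset W => Y ∈ Q ∧ (X ∩ Y).card = 3) A B
  bdry : ∀ B ∈ Q, ∃ x ∈ B, (∀ B' ∈ Q, B.erase x ⊆ B' → B' = B) ∧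
    ∀ y ∈ B, y ≠ x → ∃ B' ∈ Q, B' ≠ B ∧ B.erase y ⊆ B'
  hom : ∀ w : Finset W → ZMod 2,
    (∀ e : Finset W, e.card = 2 → ∑ T ∈ (ridges Q).filter (fun T => e ⊆ T), w T = 0) →
    ∃ p : Finset W → ZMod 2, ∀ T ∈ ridges Q, w T = ∑ B ∈ Q.filter (fun B => T ⊆ B), p B

/-- Sum over the subsets of codimension one. -/
theorem sum_powersetCard_erase {M : Type*} [AddCommMonoid M] {n : ℕ} {B : Finset W}
    (hB : B.card = n + 1) (G : Finset W → M) :
    ∑ T ∈ B.powersetCard n, G T = ∑ x ∈ B, G (B.erase x) := by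
  symm
  apply Finset.sum_bij (fun x _ => B.erase x)
  · intro x hx
    rw [mem_powersetCard]
    exact ⟨erase_subset _ _, by rw [card_erase_of_mem hx, hB]; rfl⟩
  · intro x hx y hy hxy
    by_contra hne
    have : y ∈ B.erase x := mem_erase.2 ⟨fun h => hne h.symm, hy⟩
    rw [hxy] at this
    simp at this
  · intro T hT
    rw [mem_powersetCard] at hT
    have h1 : (B \ T).card = 1 := by
      rw [card_sdiff_of_subset hT.1, hB, hT.2]; omega
    obtain ⟨x, hx⟩ := card_eq_one.1 h1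
    have hx1 : x ∈ B \ T := by rw [hx]; simp
    rw [mem_sdiff] at hx1
    refine ⟨x, hx1.1, ?_⟩
    ext y
    rw [mem_erase]
    constructor
    · rintro ⟨h2, h3⟩
      by_contra h4
      have : y ∈ B \ T := mem_sdiff.2 ⟨h3, h4⟩
      rw [hx, mem_singleton] at this
      exact h2 this
    · intro h2
      exact ⟨fun h => hx1.2 (h ▸ h2), hT.1 h2⟩
  · intro x hx; rfl

theorem sum_pairs_zero {T : Finset W} (hT : T.card = 3) (F : W → ZMod 2) :
    ∑ e ∈ T.powersetCard 2, ∑ z ∈ e, F z = 0 := by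
  rw [sum_powersetCard_erase hT]
  have h1 : ∀ x ∈ T, ∑ z ∈ T.erase x, F z = ∑ z ∈ T, F z + F x := by
    intro x hx
    rw [← Finset.add_sum_erase T F hx]
    have := CharTwo.add_self_eq_zero (F x)
    linear_combination (-1 : ZMod 2) * this
  rw [Finset.sum_congr rfl h1, Finset.sum_add_distrib, Finset.sum_const, hT]
  have := CharTwo.add_self_eq_zero (∑ z ∈ T, F z)
  rw [show (3 : ℕ) • (∑ z ∈ T, F z) = ((∑ z ∈ T, F z) + ∑ z ∈ T, F z) + ∑ z ∈ T, F z by
    rw [show (3 : ℕ) = 2 + 1 by rfl, add_smul, two_smul, one_smul], this, zero_add, this]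

theorem inter_eq_of_ne {L : Finset (Finset W)} (hc : ∀ B ∈ L, B.card = 4) {A B T : Finset W}
    (hA : A ∈ L) (hB : B ∈ L) (hne : A ≠ B) (hTA : T ⊆ A) (hTB : T ⊆ B) (hT : T.card = 3) :
    A ∩ B = T := by
  symm
  apply eq_of_subset_of_card_le (subset_inter hTA hTB)
  rw [hT]
  by_contra hlt
  push Not at hlt
  have h1 : (A ∩ B).card ≤ A.card := card_le_card inter_subset_left
  have h2 : A ∩ B = A := eq_of_subset_of_card_le inter_subset_left (by rw [hc A hA]; omega)
  have h3 : A ∩ B = B := eq_of_subset_of_card_le inter_subset_right (by rw [hc B hB]; omega)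
  exact hne (h2.symm.trans h3)

namespace Setup

variable {L Q : Finset (Finset W)}

theorem mem_ridges {T : Finset W} : T ∈ ridges Q ↔ ∃ B ∈ Q, T ⊆ B ∧ T.card = 3 := by
  unfold ridges
  simp only [mem_biUnion, mem_powersetCard]

/-- The facets of `Q` containing a ridge, when one more is known. -/
theorem filter_eq_pair (h : Setup L Q) {T A B : Finset W} (hA : A ∈ Q) (hB : B ∈ Q) (hne : A ≠ B)
    (hTA : T ⊆ A) (hTB : T ⊆ B) (hT : T.card = 3) : Q.filter (fun X => T ⊆ X) = {A, B} := by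
  ext X
  rw [mem_filter, mem_insert, mem_singleton]
  constructor
  · rintro ⟨h1, h2⟩
    by_cases hXA : X = A
    · exact Or.inl hXA
    · right
      obtain ⟨Y, -, hY⟩ := h.ridge A (h.sub hA) T hTA hT
      rw [hY X ⟨h.sub h1, hXA, h2⟩, hY B ⟨h.sub hB, hne.symm, hTB⟩]
  · rintro (rfl | rfl)
    · exact ⟨hA, hTA⟩
    · exact ⟨hB, hTB⟩

theorem mem_inner_iff (h : Setup L Q) {T A : Finset W} (hA : A ∈ Q) (hTA : T ⊆ A)
    (hT : T.card = 3) : T ∈ inner Q ↔ ∃ B ∈ Q, B ≠ A ∧ T ⊆ B := by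
  unfold inner
  rw [mem_filter, mem_ridges]
  constructor
  · rintro ⟨-, h2⟩
    by_contra hcon
    push Not at hcon
    have : Q.filter (fun X => T ⊆ X) = {A} := by
      ext X
      rw [mem_filter, mem_singleton]
      constructor
      · rintro ⟨h3, h4⟩
        by_contra h5
        exact hcon X h3 h5 h4
      · rintro rfl
        exact ⟨hA, hTA⟩
    rw [this, card_singleton] at h2
    omega
  · rintro ⟨B, hB, hne, hTB⟩
    refine ⟨⟨A, hA, hTA, hT⟩, ?_⟩
    rw [h.filter_eq_pair hA hB hne.symm hTA hTB hT, card_pair hne.symm]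

theorem inner_card_three {T : Finset W} (hT : T ∈ inner Q) : T.card = 3 := by
  unfold inner at hT
  rw [mem_filter, mem_ridges] at hT
  obtain ⟨⟨B, -, -, h⟩, -⟩ := hT
  exact h

theorem exists_pair (h : Setup L Q) {T : Finset W} (hT : T ∈ inner Q) :
    ∃ A ∈ Q, ∃ B ∈ Q, A ≠ B ∧ T ⊆ A ∧ T ⊆ B ∧ Q.filter (fun X => T ⊆ X) = {A, B} ∧
      A ∩ B = T := by
  have h3 := inner_card_three hT
  unfold inner at hT
  rw [mem_filter] at hT
  obtain ⟨A, B, hne, hAB⟩ := card_eq_two.1 hT.2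
  have hA : A ∈ Q.filter (fun X => T ⊆ X) := by rw [hAB]; simp
  have hB : B ∈ Q.filter (fun X => T ⊆ X) := by rw [hAB]; simp
  rw [mem_filter] at hA hB
  exact ⟨A, hA.1, B, hB.1, hne, hA.2, hB.2, hAB,
    inter_eq_of_ne h.card (h.sub hA.1) (h.sub hB.1) hne hA.2 hB.2 h3⟩

theorem card_inner_facet (h : Setup L Q) {B : Finset W} (hB : B ∈ Q) :
    ((inner Q).filter (fun T => T ⊆ B)).card = 3 := by
  obtain ⟨x, hx, hx1, hx2⟩ := h.bdry B hB
  have h4 := h.card B (h.sub hB)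
  have h1 : (inner Q).filter (fun T => T ⊆ B) = (B.erase x).image (fun y => B.erase y) := by
    ext T
    rw [mem_filter, mem_image]
    constructor
    · rintro ⟨h1, h2⟩
      have h3 := inner_card_three h1
      have h5 : (B \ T).card = 1 := by rw [card_sdiff_of_subset h2, h4, h3]
      obtain ⟨y, hy⟩ := card_eq_one.1 h5
      have hy1 : y ∈ B \ T := by rw [hy]; simp
      rw [mem_sdiff] at hy1
      have hT : B.erase y = T := by
        symm
        apply eq_of_subset_of_card_le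
        · intro z hz
          exact mem_erase.2 ⟨fun h => hy1.2 (h ▸ hz), h2 hz⟩
        · rw [card_erase_of_mem hy1.1, h4, h3]
      refine ⟨y, mem_erase.2 ⟨?_, hy1.1⟩, hT⟩
      rintro rfl
      obtain ⟨B', hB', hne, hsub⟩ := (h.mem_inner_iff hB h2 h3).1 h1
      rw [← hT] at hsub
      exact hne (hx1 B' hB' hsub)
    · rintro ⟨y, hy, rfl⟩
      rw [mem_erase] at hy
      have hc : (B.erase y).card = 3 := by rw [card_erase_of_mem hy.2, h4]
      exact ⟨(h.mem_inner_iff hB (erase_subset _ _) hc).2 (hx2 y hy.2 hy.1), erase_subset _ _⟩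
  rw [h1, card_image_of_injOn, card_erase_of_mem hx, h4]
  intro y hy z hz hyz
  rw [mem_coe, mem_erase] at hy hz
  by_contra hne
  have h5 : z ∈ B.erase y := mem_erase.2 ⟨fun h => hne h.symm, hz.2⟩
  simp only at hyz
  rw [hyz] at h5
  simp at h5

theorem three_card_eq (h : Setup L Q) : 3 * Q.card = 2 * (inner Q).card := by
  have h1 : ∑ B ∈ Q, ((inner Q).filter (fun T => T ⊆ B)).card =
      ∑ T ∈ inner Q, (Q.filter (fun B => T ⊆ B)).card := by
    simp only [card_filter]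
    exact Finset.sum_comm
  have h2 : ∑ B ∈ Q, ((inner Q).filter (fun T => T ⊆ B)).card = Q.card * 3 := by
    rw [Finset.sum_congr rfl (fun B hB => h.card_inner_facet hB), sum_const, smul_eq_mul]
  have h3 : ∑ T ∈ inner Q, (Q.filter (fun B => T ⊆ B)).card = (inner Q).card * 2 := by
    rw [Finset.sum_congr rfl (g := fun _ => 2) (by
      intro T hT
      unfold inner at hT
      rw [mem_filter] at hT
      exact hT.2), sum_const, smul_eq_mul]
  omega

end Setup

end Rot
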