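import Pool.Agent.DualGraph.Local
import Pool.Agent.Helper90.ROT.Count

/-!
# Part B: pivots, crossing functions and labels
-/

namespace Rot

open Finset DualGraph

variable {V W : Type*} [DecidableEq V] [DecidableEq W]

/-- A pair all of whose facets correspond to facets containing `v`. -/
def Closed (K : Set (Finset V)) (Φ : Finset V → Finset W) (v : V) (C : Finset W) : Prop :=
  C.card = 2 ∧ (∃ A ∈ K, C ⊆ Φ A) ∧ ∀ A ∈ K, C ⊆ Φ A → v ∈ A

/-- The data of part B. -/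
structure Ctx (K : Set (Finset V)) (L : Set (Finset W)) (Φ : Finset V → Finset W)
    (φ : Finset V → V → W) (v : V) : Prop where
  hK : IsPM 3 K
  hL : IsPM 3 L
  hΦ : DualIso 3 K L Φ
  hφ : ∀ A ∈ K, ∀ x ∈ A, Opp 3 K Φ A x (φ A x)
  rot : ∀ C, Closed K Φ v C → ∀ A ∈ K, ∀ B ∈ K, C ⊆ Φ A → C ⊆ Φ B → (A ∩ B).card = 3 →
    ∀ x ∈ A ∩ B, φ A x = φ B x → ∀ y ∈ A ∩ B, φ A y = φ B y
  edge : ∀ C : Finset W, C.card = 2 → ∀ A ∈ L, ∀ B ∈ L, C ⊆ A → C ⊆ B →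
    Relation.ReflTransGen (fun X Y : Finset W => Y ∈ L ∧ C ⊆ Y ∧ (X ∩ Y).card = 3) A B
  h1 : LinkH1Zero K v

/-- The pivot. -/
def Piv (φ : Finset V → V → W) (v : V) (C : Finset W) (A : Finset V) (p : V) : Prop :=
  p ∈ A ∧ p ≠ v ∧ C = {φ A v, φ A p}

/-- The properties of the potential of the crossing function. -/
structure IsF (K : Set (Finset V)) (Φ : Finset V → Finset W) (φ : Finset V → V → W) (v : V)
    (C : Finset W) (f : V → ZMod 2) : Prop where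
  f1 : ∀ A ∈ K, C ⊆ Φ A → ∀ p, Piv φ v C A p → ∀ j ∈ A, j ≠ v → j ≠ p → f p + f j = 1
  f2 : ∀ A ∈ K, v ∈ A → ¬ C ⊆ Φ A → ∀ i ∈ A, ∀ j ∈ A, i ≠ v → j ≠ v → f i = f j

/-- The chosen label. -/
def IsY (φ : Finset V → V → W) (v : V) (C : Finset W) (f : V → ZMod 2) (A : Finset V) (y : W) :
    Prop :=
  ∃ p, Piv φ v C A p ∧ ((f p = 0 ∧ y = φ A v) ∨ (f p = 1 ∧ y = φ A p))

/-- Adjacency of labelled facets. -/
def LK (K : Set (Finset V)) (Φ : Finset V → Finset W) (v : V) (p q : Finset V × W) : Prop :=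
  p.1 ∈ K ∧ q.1 ∈ K ∧ v ∈ p.1 ∧ v ∈ q.1 ∧ (p.1 ∩ q.1).card = 3 ∧ p.2 = q.2 ∧ p.2 ∈ Φ p.1 ∧
    q.2 ∈ Φ q.1

theorem LK.symm {K : Set (Finset V)} {Φ : Finset V → Finset W} {v : V} {p q : Finset V × W}
    (h : LK K Φ v p q) : LK K Φ v q p := by
  obtain ⟨h1, h2, h3, h4, h5, h6, h7, h8⟩ := h
  exact ⟨h2, h1, h4, h3, by rw [inter_comm]; exact h5, h6.symm, h8, h7⟩

namespace Ctx

variable {K : Set (Finset V)} {L : Set (Finset W)} {Φ : Finset V → Finset W}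
  {φ : Finset V → V → W} {v : V}

theorem mem (c : Ctx K L Φ φ v) {A : Finset V} (hA : A ∈ K) {x : V} (hx : x ∈ A) :
    φ A x ∈ Φ A := (c.hφ A hA x hx).mem_right

theorem inj (c : Ctx K L Φ φ v) {A : Finset V} (hA : A ∈ K) {x y : V} (hx : x ∈ A) (hy : y ∈ A)
    (h : φ A x = φ A y) : x = y := by
  have h1 := c.hφ A hA x hx
  rw [h] at h1
  exact Opp.unique_left c.hK c.hL c.hΦ hA h1 (c.hφ A hA y hy)

theorem surj (c : Ctx K L Φ φ v) {A : Finset V} (hA : A ∈ K) {u : W} (hu : u ∈ Φ A) :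
    ∃ x ∈ A, φ A x = u := by
  obtain ⟨x, hx⟩ := Opp.exists_left c.hK c.hL c.hΦ hA hu
  exact ⟨x, hx.mem_left, Opp.unique c.hK c.hL c.hΦ hA (c.hφ A hA x hx.mem_left) hx⟩

theorem adj (c : Ctx K L Φ φ v) {A B : Finset V} (hA : A ∈ K) (hB : B ∈ K)
    (hAB : (A ∩ B).card = 3) {x : V} (hx : x ∈ A) : x ∈ B ↔ φ A x ∈ Φ B :=
  Opp.mem_adj c.hK c.hL c.hΦ hA hB hAB (c.hφ A hA x hx)

/-- A common label of two adjacent facets sits at a common vertex. -/
theorem common (c : Ctx K L Φ φ v) {A B : Finset V} (hA : A ∈ K) (hB : B ∈ K)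
    (hAB : (A ∩ B).card = 3) {u : W} (hu : u ∈ Φ A) (hu' : u ∈ Φ B) :
    ∃ x ∈ A ∩ B, φ A x = u := by
  obtain ⟨x, hx, rfl⟩ := c.surj hA hu
  exact ⟨x, mem_inter.2 ⟨hx, (c.adj hA hB hAB hx).2 hu'⟩, rfl⟩

theorem label_mem (c : Ctx K L Φ φ v) {C : Finset W} (hC : Closed K Φ v C) {A : Finset V}
    (hA : A ∈ K) (hCA : C ⊆ Φ A) : φ A v ∈ C := by
  by_contra hcon
  have hv := hC.2.2 A hA hCA
  obtain ⟨B, hB, hAB, hvB⟩ := exists_nb c.hK hA hv
  apply hvB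
  apply hC.2.2 B hB
  intro u hu
  obtain ⟨x, hx, rfl⟩ := c.surj hA (hCA hu)
  have hxv : x ≠ v := by
    rintro rfl
    exact hcon hu
  have h1 := inter_eq_erase c.hK.card_facet hA hAB hv hvB
  have h2 : x ∈ A ∩ B := by rw [h1]; exact mem_erase.2 ⟨hxv, hx⟩
  exact (c.adj hA hB hAB hx).1 (mem_inter.1 h2).2

theorem exists_piv (c : Ctx K L Φ φ v) {C : Finset W} (hC : Closed K Φ v C) {A : Finset V}
    (hA : A ∈ K) (hCA : C ⊆ Φ A) : ∃ p, Piv φ v C A p := by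
  have hv := hC.2.2 A hA hCA
  have h1 := c.label_mem hC hA hCA
  have h2 : (C.erase (φ A v)).card = 1 := by rw [card_erase_of_mem h1, hC.1]
  obtain ⟨u, hu⟩ := card_eq_one.1 h2
  have hu' : u ∈ C.erase (φ A v) := by rw [hu]; simp
  rw [mem_erase] at hu'
  obtain ⟨p, hp, rfl⟩ := c.surj hA (hCA hu'.2)
  refine ⟨p, hp, ?_, ?_⟩
  · rintro rfl
    exact hu'.1 rfl
  · rw [← insert_erase h1, hu]

theorem piv_label (c : Ctx K L Φ φ v) {C : Finset W} {A : Finset V} (hA : A ∈ K) (hv : v ∈ A)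
    {p : V} (hp : Piv φ v C A p) {x : V} (hx : x ∈ A) (hxC : φ A x ∈ C) : x = v ∨ x = p := by
  rw [hp.2.2, mem_insert, mem_singleton] at hxC
  rcases hxC with h | h
  · exact Or.inl (c.inj hA hx hv h)
  · exact Or.inr (c.inj hA hx hp.1 h)

theorem piv_unique (c : Ctx K L Φ φ v) {C : Finset W} {A : Finset V} (hA : A ∈ K) (hv : v ∈ A)
    {p q : V} (hp : Piv φ v C A p) (hq : Piv φ v C A q) : p = q := by
  have h1 : φ A p ∈ C := by rw [hp.2.2]; simp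
  rcases c.piv_label hA hv hq hp.1 h1 with h | h
  · exact absurd h hp.2.1
  · exact h

/-- Pivots in adjacent facets. -/
theorem piv_adj (c : Ctx K L Φ φ v) {C : Finset W} (hC : Closed K Φ v C) {A B : Finset V}
    (hA : A ∈ K) (hB : B ∈ K)
    (hvA : v ∈ A) (hvB : v ∈ B) (hAB : (A ∩ B).card = 3) (hCA : C ⊆ Φ A) (hCB : C ⊆ Φ B)
    {p q : V} (hp : Piv φ v C A p) (hq : Piv φ v C B q) :
    p ∈ B ∧ q ∈ A ∧ ((φ A v = φ B v ∧ φ A p = φ B p ∧ p = q) ∨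
      (φ A v = φ B q ∧ φ A p = φ B v ∧ p ≠ q)) := by
  have hBA : (B ∩ A).card = 3 := by rw [inter_comm]; exact hAB
  have hpC : φ A p ∈ C := by rw [hp.2.2]; simp
  have hqC : φ B q ∈ C := by rw [hq.2.2]; simp
  have hvC : φ A v ∈ C := by rw [hp.2.2]; simp
  have hvC' : φ B v ∈ C := by rw [hq.2.2]; simp
  have hpB : p ∈ B := (c.adj hA hB hAB hp.1).2 (hCB hpC)
  have hqA : q ∈ A := (c.adj hB hA hBA hq.1).2 (hCA hqC)
  refine ⟨hpB, hqA, ?_⟩
  have hpAB : p ∈ A ∩ B := mem_inter.2 ⟨hp.1, hpB⟩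
  have hvAB : v ∈ A ∩ B := mem_inter.2 ⟨hvA, hvB⟩
  by_cases heq : φ A v = φ B v
  · left
    have h1 := c.rot C hC A hA B hB hCA hCB hAB v hvAB heq p hpAB
    refine ⟨heq, h1, ?_⟩
    rcases c.piv_label hB hvB hq hpB (h1 ▸ hpC) with h | h
    · exact absurd h hp.2.1
    · exact h
  · right
    have hne : ∀ y ∈ A ∩ B, φ A y ≠ φ B y := by
      intro y hy h
      exact heq (c.rot C hC A hA B hB hCA hCB hAB y hy h v hvAB)
    have h1 : φ A v = φ B q := by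
      rw [hq.2.2, mem_insert, mem_singleton] at hvC
      rcases hvC with h | h
      · exact absurd h heq
      · exact h
    have h2 : φ A p = φ B v := by
      rw [hp.2.2, mem_insert, mem_singleton] at hvC'
      rcases hvC' with h | h
      · exact absurd h.symm heq
      · exact h.symm
    refine ⟨h1, h2, ?_⟩
    rintro rfl
    -- the third vertex
    have h3 : (((A ∩ B).erase v).erase p).card = 1 := by
      rw [card_erase_of_mem (mem_erase.2 ⟨hp.2.1, hpAB⟩), card_erase_of_mem hvAB, hAB]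
    obtain ⟨r, hr⟩ := card_eq_one.1 h3
    have hr' : r ∈ ((A ∩ B).erase v).erase p := by rw [hr]; simp
    rw [mem_erase, mem_erase, mem_inter] at hr'
    obtain ⟨hrp, hrv, hrA, hrB⟩ := hr'
    obtain ⟨x, hx, hxr⟩ := c.common hB hA hBA ((c.adj hA hB hAB hrA).1 hrB) (c.mem hA hrA)
    rw [mem_inter] at hx
    have hx3 : x = v ∨ x = p ∨ x = r := by
      by_contra hcon
      push Not at hcon
      have : x ∈ ((A ∩ B).erase v).erase p :=
        mem_erase.2 ⟨hcon.2.1, mem_erase.2 ⟨hcon.1, mem_inter.2 ⟨hx.2, hx.1⟩⟩⟩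
      rw [hr, mem_singleton] at this
      exact hcon.2.2 this
    rcases hx3 with rfl | rfl | rfl
    · rw [← h2] at hxr
      exact hrp (c.inj hA hp.1 hrA hxr).symm
    · rw [← h1] at hxr
      exact hrv (c.inj hA hvA hrA hxr).symm
    · exact hne x (mem_inter.2 ⟨hrA, hrB⟩) hxr.symm

end Ctx

end Rot
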