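import Pool.Agent.Helper90.ROT.Conf

/-!
# Part B: injectivity and the two extra components
-/

namespace Rot

open Finset DualGraph

variable {V W : Type*} [DecidableEq V] [DecidableEq W]

namespace Ctx

variable {K : Set (Finset V)} {L : Set (Finset W)} {Φ : Finset V → Finset W}
  {φ : Finset V → V → W} {v : V}

theorem lk_symm {p q : Finset V × W} (h : Relation.ReflTransGen (LK K Φ v) p q) :
    Relation.ReflTransGen (LK K Φ v) q p := by
  induction h with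
  | refl => exact Relation.ReflTransGen.refl
  | tail _ h2 ih => exact Relation.ReflTransGen.head (LK.symm h2) ih

/-- An edge of the link that leaves a set of vertices. -/
theorem exists_edge (c : Ctx K L Φ φ v) (P : V → Prop) {A₀ B₀ : Finset V} (hA₀ : A₀ ∈ K)
    (hvA₀ : v ∈ A₀) {o : V} (ho : o ∈ A₀) (hov : o ≠ v) (hPo : P o) (hB₀ : B₀ ∈ K) (hvB₀ : v ∈ B₀)
    {j₀ : V} (hj₀ : j₀ ∈ B₀) (hjv : j₀ ≠ v) (hPj : ¬ P j₀) :
    ∃ B ∈ K, v ∈ B ∧ ∃ i ∈ B, ∃ j ∈ B, i ≠ v ∧ j ≠ v ∧ P i ∧ ¬ P j := by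
  by_contra hcon
  push Not at hcon
  have hch := c.hK.connected v A₀ hA₀ B₀ hB₀ hvA₀ hvB₀
  have key : ∀ B, Relation.ReflTransGen
      (fun X Y : Finset V => Y ∈ K ∧ v ∈ Y ∧ (X ∩ Y).card = 3) A₀ B →
      B ∈ K ∧ v ∈ B ∧ ∀ j ∈ B, j ≠ v → P j := by
    intro B hB
    induction hB with
    | refl => exact ⟨hA₀, hvA₀, fun j hj hjv => hcon A₀ hA₀ hvA₀ o ho j hj hov hjv hPo⟩
    | @tail X Y hX hXY ih =>
      obtain ⟨h1, h2, h3⟩ := ih
      have h4 : v ∈ X ∩ Y := mem_inter.2 ⟨h2, hXY.2.1⟩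
      have h5 : ((X ∩ Y).erase v).Nonempty := by
        rw [← card_pos, card_erase_of_mem h4, hXY.2.2]; norm_num
      obtain ⟨i, hi⟩ := h5
      rw [mem_erase, mem_inter] at hi
      exact ⟨hXY.1, hXY.2.1, fun j hj hjv =>
        hcon Y hXY.1 hXY.2.1 i hi.2.2 j hj hi.1 hjv (h3 i hi.2.1 hi.1)⟩
  exact hPj ((key B₀ hch).2.2 j₀ hj₀ hjv)

theorem lk_of_chain (c : Ctx K L Φ φ v) {C : Finset W} (hC : Closed K Φ v C) {y : W} (hy : y ∈ C)
    {A B : Finset V} (hA : A ∈ K) (hB : B ∈ K) (hCA : C ⊆ Φ A) (hCB : C ⊆ Φ B) :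
    Relation.ReflTransGen (LK K Φ v) (A, y) (B, y) := by
  have h1 := c.chain hC.1 hA hB hCA hCB
  clear hB hCB
  induction h1 with
  | refl => exact Relation.ReflTransGen.refl
  | @tail X Y hX hXY ih =>
    obtain ⟨h1, h2, h3, h4, h5⟩ := hXY
    exact ih.tail ⟨h1, h2, hC.2.2 X h1 h3, hC.2.2 Y h2 h4, h5, rfl, h3 hy, h4 hy⟩

theorem inj_half (c : Ctx K L Φ φ v) {C C' : Finset W} (hC : Closed K Φ v C)
    (hC' : Closed K Φ v C') {f f' : V → ZMod 2} (hf : IsF K Φ φ v C f) (hf' : IsF K Φ φ v C' f')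
    {y : W} (hyC : y ∈ C) (hy : ∀ A ∈ K, C ⊆ Φ A → IsY φ v C f A y)
    (hy' : ∀ A ∈ K, C' ⊆ Φ A → IsY φ v C' f' A y)
    {A A' : Finset V} (hA : A ∈ K) (hCA : C ⊆ Φ A) (hCA' : C' ⊆ Φ A')
    (hch : Relation.ReflTransGen (LK K Φ v) (A', y) (A, y))
    {B : Finset V} (hB : B ∈ K) (hvB : v ∈ B) {i j : V} (hi : i ∈ B) (hj : j ∈ B) (hiv : i ≠ v)
    (hjv : j ≠ v) (hfi : f i = 0) (hfi' : f' i = 0) (hfj : f j = 1) : C = C' := by
  have hij : i ≠ j := by
    rintro rfl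
    rw [hfi] at hfj
    exact absurd hfj (by decide)
  -- the other facet containing v, i, j
  have h1 : (((B.erase v).erase i).erase j).card = 1 := by
    rw [card_erase_of_mem (mem_erase.2 ⟨hij.symm, mem_erase.2 ⟨hjv, hj⟩⟩),
      card_erase_of_mem (mem_erase.2 ⟨hiv, hi⟩), card_erase_of_mem hvB, c.hK.card_facet B hB]
  obtain ⟨k, hk⟩ := card_eq_one.1 h1
  have hk' : k ∈ ((B.erase v).erase i).erase j := by rw [hk]; simp
  rw [mem_erase, mem_erase, mem_erase] at hk'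
  obtain ⟨hkj, hki, hkv, hkB⟩ := hk'
  obtain ⟨B', hB', hBB', hkB'⟩ := exists_nb c.hK hB hkB
  have hint := inter_eq_erase c.hK.card_facet hB hBB' hkB hkB'
  have hvB' : v ∈ B' := by
    have : v ∈ B ∩ B' := by rw [hint]; exact mem_erase.2 ⟨hkv.symm, hvB⟩
    exact (mem_inter.1 this).2
  have hiB' : i ∈ B' := by
    have : i ∈ B ∩ B' := by rw [hint]; exact mem_erase.2 ⟨hki.symm, hi⟩
    exact (mem_inter.1 this).2
  have hjB' : j ∈ B' := by
    have : j ∈ B ∩ B' := by rw [hint]; exact mem_erase.2 ⟨hkj.symm, hj⟩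
    exact (mem_inter.1 this).2
  have hthree : ∀ x ∈ B, x ∈ B' → x ≠ v → x = i ∨ x = j := by
    intro x hx hx' hxv
    by_contra hcon
    push Not at hcon
    have : x ∈ ((B.erase v).erase i).erase j :=
      mem_erase.2 ⟨hcon.2, mem_erase.2 ⟨hcon.1, mem_erase.2 ⟨hxv, hx⟩⟩⟩
    rw [hk, mem_singleton] at this
    exact hkB' (this ▸ hx')
  have hCB : C ⊆ Φ B := by
    by_contra hcon
    have := hf.f2 B hB hvB hcon i hi j hj hiv hjv
    rw [hfi, hfj] at this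
    exact absurd this (by decide)
  have hCB' : C ⊆ Φ B' := by
    by_contra hcon
    have := hf.f2 B' hB' hvB' hcon i hiB' j hjB' hiv hjv
    rw [hfi, hfj] at this
    exact absurd this (by decide)
  have hch1 : ∀ D ∈ K, C ⊆ Φ D → i ∈ D → C' ⊆ Φ D := by
    intro D hD hCD hiD
    have h2 := hch.trans (c.lk_of_chain hC hyC hA hD hCA hCD)
    rcases (c.confined hC' hf' hy' hCA' h2).2 with h3 | h3
    · exact h3
    · exfalso
      have := h3 i hiD hiv
      rw [hfi'] at this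
      exact absurd this (by decide)
  have hC'B := hch1 B hB hCB hi
  have hC'B' := hch1 B' hB' hCB' hiB'
  obtain ⟨p, hp⟩ := c.exists_piv hC hB hCB
  obtain ⟨p₁, hp₁⟩ := c.exists_piv hC hB' hCB'
  obtain ⟨p', hp'⟩ := c.exists_piv hC' hB hC'B
  obtain ⟨p₁', hp₁'⟩ := c.exists_piv hC' hB' hC'B'
  have hpB' : p ∈ B' := (c.piv_adj hC hB hB' hvB hvB' hBB' hCB hCB' hp hp₁).1
  have hpB'' : p' ∈ B' := (c.piv_adj hC' hB hB' hvB hvB' hBB' hC'B hC'B' hp' hp₁').1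
  have e1 : (p = i ∧ y = φ B v) ∨ (p = j ∧ y = φ B j) := by
    have h2 := c.isY_unique hB hvB hp (hy B hB hCB)
    rcases hthree p hp.1 hpB' hp.2.1 with h3 | h3
    · left
      rw [h3, hfi] at h2
      rcases h2 with h2 | h2
      · exact ⟨h3, h2.2⟩
      · exact absurd h2.1 (by decide)
    · right
      rw [h3, hfj] at h2
      rcases h2 with h2 | h2
      · exact absurd h2.1 (by decide)
      · exact ⟨h3, h2.2⟩
  have e2 : (p' = i ∧ y = φ B v) ∨ (p' = j ∧ y = φ B j) := by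
    have h2 := c.isY_unique hB hvB hp' (hy' B hB hC'B)
    rcases hthree p' hp'.1 hpB'' hp'.2.1 with h3 | h3
    · left
      rw [h3, hfi'] at h2
      rcases h2 with h2 | h2
      · exact ⟨h3, h2.2⟩
      · exact absurd h2.1 (by decide)
    · right
      have h4 := hf'.f1 B hB hC'B p' hp' i hi hiv (by rw [h3]; exact hij)
      rw [hfi', add_zero] at h4
      rw [h4] at h2
      rcases h2 with h2 | h2
      · exact absurd h2.1 (by decide)
      · exact ⟨h3, by rw [h2.2, h3]⟩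
  have hpp : p = p' := by
    rcases e1 with ⟨h2, h3⟩ | ⟨h2, h3⟩ <;> rcases e2 with ⟨h4, h5⟩ | ⟨h4, h5⟩
    · rw [h2, h4]
    · exact absurd (c.inj hB hvB hj (h3.symm.trans h5)).symm hjv
    · exact absurd (c.inj hB hvB hj (h5.symm.trans h3)).symm hjv
    · rw [h2, h4]
  rw [hp.2.2, hp'.2.2, hpp]

/-- Different closed pairs have different components. -/
theorem label_inj (c : Ctx K L Φ φ v) {C C' : Finset W} (hC : Closed K Φ v C)
    (hC' : Closed K Φ v C') {f f' : V → ZMod 2} (hf : IsF K Φ φ v C f) (hf' : IsF K Φ φ v C' f')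
    {A₀ : Finset V} (hA₀ : A₀ ∈ K) (hvA₀ : v ∈ A₀) {o : V} (ho : o ∈ A₀) (hov : o ≠ v)
    (hfo : f o = 0) (hfo' : f' o = 0)
    {y : W} (hyC : y ∈ C) (hyC' : y ∈ C') (hy : ∀ A ∈ K, C ⊆ Φ A → IsY φ v C f A y)
    (hy' : ∀ A ∈ K, C' ⊆ Φ A → IsY φ v C' f' A y)
    {A A' : Finset V} (hA : A ∈ K) (hA' : A' ∈ K) (hCA : C ⊆ Φ A) (hCA' : C' ⊆ Φ A')
    (hch : Relation.ReflTransGen (LK K Φ v) (A, y) (A', y)) : C = C' := by
  -- a vertex with value one
  have h1 : ∃ j ∈ A, j ≠ v ∧ f j = 1 := by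
    have hv := hC.2.2 A hA hCA
    obtain ⟨p, hp⟩ := c.exists_piv hC hA hCA
    have h2 : ((A.erase v).erase p).Nonempty := by
      rw [← card_pos, card_erase_of_mem (mem_erase.2 ⟨hp.2.1, hp.1⟩), card_erase_of_mem hv,
        c.hK.card_facet A hA]
      norm_num
    obtain ⟨j, hj⟩ := h2
    rw [mem_erase, mem_erase] at hj
    have h3 := hf.f1 A hA hCA p hp j hj.2.2 hj.2.1 hj.1
    rcases zmod2_cases (f p) with h | h
    · rw [h, zero_add] at h3
      exact ⟨j, hj.2.2, hj.2.1, h3⟩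
    · exact ⟨p, hp.1, hp.2.1, h⟩
  obtain ⟨j₀, hj₀, hjv₀, hfj₀⟩ := h1
  obtain ⟨B, hB, hvB, i, hi, j, hj, hiv, hjv, hPi, hPj⟩ :=
    c.exists_edge (fun x => f x = 0 ∧ f' x = 0) hA₀ hvA₀ ho hov ⟨hfo, hfo'⟩ hA
      (hC.2.2 A hA hCA) hj₀ hjv₀ (by
        rintro ⟨h2, -⟩
        rw [hfj₀] at h2
        exact absurd h2 (by decide))
  rcases zmod2_cases (f j) with h2 | h2
  · rcases zmod2_cases (f' j) with h3 | h3
    · exact absurd ⟨h2, h3⟩ hPj
    · exact (c.inj_half hC' hC hf' hf hyC' hy' hy hA' hCA' hCA hch hB hvB hi hj hiv hjv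
        hPi.2 hPi.1 h3).symm
  · exact c.inj_half hC hC' hf hf' hyC hy hy' hA hCA hCA' (lk_symm hch) hB hvB hi hj hiv hjv
      hPi.1 hPi.2 h2

/-- The labels at the base vertex belong to extra components. -/
theorem extra (c : Ctx K L Φ φ v) {C : Finset W} (hC : Closed K Φ v C) {f : V → ZMod 2}
    (hf : IsF K Φ φ v C f) {o : V} (hov : o ≠ v) (hfo : f o = 0) {y : W}
    (hy : ∀ A ∈ K, C ⊆ Φ A → IsY φ v C f A y) {A : Finset V} (hCA : C ⊆ Φ A)
    {B : Finset V} (hB : B ∈ K) (hvB : v ∈ B) (hoB : o ∈ B) :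
    ¬ Relation.ReflTransGen (LK K Φ v) (A, y) (B, φ B o) := by
  intro h
  obtain ⟨h1, h2⟩ := c.confined hC hf hy hCA h
  rcases h2 with h2 | h2
  · obtain ⟨p, hp⟩ := c.exists_piv hC hB h2
    have h3 : φ B o = y := h1
    rcases c.isY_unique hB hvB hp (hy B hB h2) with ⟨h4, h5⟩ | ⟨h4, h5⟩
    · exact hov (c.inj hB hoB hvB (h3.trans h5))
    · have h6 := c.inj hB hoB hp.1 (h3.trans h5)
      rw [← h6, hfo] at h4
      exact absurd h4 (by decide)
  · have := h2 o hoB hov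
    rw [hfo] at this
    exact absurd this (by decide)

end Ctx

end Rot
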