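import Pool.Agent.Helper90.ROT.PartA

/-!
# Part A: conclusion
-/

namespace Rot

open Finset Matrix

variable {W : Type*} [DecidableEq W]

theorem phi_injective {L Q : Finset (Finset W)} (h : Setup L Q) {ι : Type*} [Fintype ι]
    (r : ι → Finset W × W) (hrQ : ∀ i, (r i).1 ∈ Q ∧ (r i).2 ∈ (r i).1)
    (hr : ∀ i j, Relation.ReflTransGen (LAdj Q) (r i) (r j) → i = j)
    {B₀ : Finset W} (hB₀ : B₀ ∈ Q) {z₀ : W} (hz₀ : z₀ ∈ B₀) {a a' : ι → ZMod 2}
    (h1 : ∀ B ∈ Q, ∀ e, e ⊆ B → e.card = 2 → ∑ z ∈ e, locf Q r a B z = ∑ z ∈ e, locf Q r a' B z)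
    (h2 : locf Q r a B₀ z₀ = locf Q r a' B₀ z₀) : a = a' := by
  have h3 : ∀ B ∈ Q, ∀ z ∈ B, locf Q r a B z = locf Q r a' B z →
      ∀ z' ∈ B, locf Q r a B z' = locf Q r a' B z' := by
    intro B hB z hz hzz z' hz'
    by_cases hne : z = z'
    · rw [← hne]; exact hzz
    · have h4 := h1 B hB {z, z'} (by
        intro x hx
        rw [mem_insert, mem_singleton] at hx
        rcases hx with rfl | rfl
        · exact hz
        · exact hz') (card_pair hne)
      rw [sum_pair hne, sum_pair hne, hzz] at h4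
      exact add_left_cancel h4
  have h4 : ∀ B ∈ Q, ∀ z ∈ B, locf Q r a B z = locf Q r a' B z := by
    intro B hB
    have hch := h.conn B₀ hB₀ B hB
    clear hB
    induction hch with
    | refl => exact h3 B₀ hB₀ z₀ hz₀ h2
    | @tail C D hC hCD ih =>
      have hCQ : C ∈ Q := by
        rcases Relation.ReflTransGen.cases_tail hC with h1 | ⟨E, -, h1⟩
        · rw [h1]; exact hB₀
        · exact h1.1
      have hne : (C ∩ D).Nonempty := by rw [← card_pos, hCD.2]; norm_num
      obtain ⟨z, hz⟩ := hne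
      rw [mem_inter] at hz
      have hadj : LAdj Q (C, z) (D, z) := ⟨hCQ, hCD.1, hCD.2, rfl, hz.1, hz.2⟩
      apply h3 D hCD.1 z hz.2
      rw [← locf_adj r a hadj, ← locf_adj r a' hadj]
      exact ih z hz.1
  funext j
  rw [← locf_rep r hr a j, ← locf_rep r hr a' j]
  exact h4 _ (hrQ j).1 _ (hrQ j).2

theorem exists_inner_of_closed {L Q : Finset (Finset W)} (h : Setup L Q) {e : Finset W}
    (he : e ∈ closedPairs L Q) : ∃ T ∈ inner Q, e ⊆ T := by
  unfold closedPairs at he
  rw [mem_filter, mem_biUnion] at he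
  obtain ⟨⟨B, hB, heB⟩, -⟩ := he
  rw [mem_powersetCard] at heB
  obtain ⟨x, hx, hx1, hx2⟩ := h.bdry B hB
  have h4 := h.card B (h.sub hB)
  have h5 : (B \ insert x e).Nonempty := by
    rw [← card_pos]
    have h6 := le_card_sdiff (insert x e) B
    have h7 := card_insert_le x e
    omega
  obtain ⟨y, hy⟩ := h5
  rw [mem_sdiff, mem_insert] at hy
  push Not at hy
  refine ⟨B.erase y, ?_, ?_⟩
  · exact (h.mem_inner_iff hB (erase_subset _ _)
      (by rw [card_erase_of_mem hy.1, h4])).2 (hx2 y hy.1 hy.2.1)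
  · intro z hz
    exact mem_erase.2 ⟨fun h => hy.2.2 (h ▸ hz), heB.1 hz⟩

/-- The potential of the ridge sums. -/
noncomputable def pk {Q : Finset (Finset W)} (k : ↥(YI Q) ⊕ ↥(YJ Q) → ZMod 2) :
    Finset W → ZMod 2 :=
  Classical.epsilon (fun p : Finset W → ZMod 2 => ∀ T ∈ ridges Q,
    wk k T = ∑ B ∈ Q.filter (fun B => T ⊆ B), p B)

theorem psi_injective {L Q : Finset (Finset W)} (h : Setup L Q)
    (BT : ↥(inner Q) → Finset W) (hBT : ∀ T, BT T ∈ Q ∧ T.1 ⊆ BT T)
    (TE : ↥(closedPairs L Q) → Finset W) (hTE : ∀ e, TE e ∈ inner Q ∧ e.1 ⊆ TE e)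
    (k k' : ↥(YI Q) ⊕ ↥(YJ Q) → ZMod 2) (hk0 : (MM Q)ᵀ.mulVec k = 0)
    (hk0' : (MM Q)ᵀ.mulVec k' = 0) (h1 : ∀ B ∈ Q, pk k B = pk k' B)
    (h2 : ∀ T : ↥(inner Q), uk k (BT T) T.1 = uk k' (BT T) T.1)
    (h3 : ∀ e : ↥(closedPairs L Q), hk k (TE e) e.1 = hk k' (TE e) e.1) : k = k' := by
  classical
  -- the ridge sums agree
  have hw : ∀ T ∈ ridges Q, wk k T = wk k' T := by
    have e1 := Classical.epsilon_spec (h.hom (wk k) (cycle_wk h k hk0))
    have e2 := Classical.epsilon_spec (h.hom (wk k') (cycle_wk h k' hk0'))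
    intro T hT
    have e1' : wk k T = ∑ B ∈ Q.filter (fun B => T ⊆ B), pk k B := e1 T hT
    have e2' : wk k' T = ∑ B ∈ Q.filter (fun B => T ⊆ B), pk k' B := e2 T hT
    rw [e1', e2']
    apply Finset.sum_congr rfl
    intro B hB
    rw [mem_filter] at hB
    exact h1 B hB.1
  -- the second parts agree
  have hu : ∀ B ∈ Q, ∀ T, T ⊆ B → T.card = 3 → uk k B T = uk k' B T := by
    intro B hB T hTB hT
    have hTr : T ∈ ridges Q := Setup.mem_ridges.2 ⟨B, hB, hTB, hT⟩
    by_cases hTi : T ∈ inner Q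
    · have h5 := h2 ⟨T, hTi⟩
      obtain ⟨h6, h7⟩ := hBT ⟨T, hTi⟩
      by_cases hne : BT ⟨T, hTi⟩ = B
      · rw [hne] at h5; exact h5
      · have h8 := h.filter_eq_pair h6 hB hne h7 hTB hT
        have h9 := hw T hTr
        unfold wk at h9
        rw [h8, sum_pair hne, sum_pair hne, h5] at h9
        exact add_left_cancel h9
    · have h8 : Q.filter (fun X => T ⊆ X) = {B} := by
        ext X
        rw [mem_filter, mem_singleton]
        constructor
        · rintro ⟨h9, h10⟩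
          by_contra h11
          exact hTi ((h.mem_inner_iff hB hTB hT).2 ⟨X, h9, h11, h10⟩)
        · rintro rfl
          exact ⟨hB, hTB⟩
      have h9 := hw T hTr
      unfold wk at h9
      rw [h8, sum_singleton, sum_singleton] at h9
      exact h9
  -- the first parts agree
  have hh : ∀ e : Finset W, e.card = 2 → ∀ T ∈ inner Q, e ⊆ T → hk k T e = hk k' T e := by
    intro e he T hT heT
    have h5 := vanish h he (fun T => if T ∈ inner Q then hk k T e - hk k' T e else 0)
      (by intro T hT; rw [if_neg hT])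
      (by
        intro B hB heB
        have e1 := MM_transpose k hk0 hB heB he
        have e2 := MM_transpose k' hk0' hB heB he
        have e3 : ∑ T ∈ (B.powersetCard 3).filter (fun T => e ⊆ T), uk k B T =
            ∑ T ∈ (B.powersetCard 3).filter (fun T => e ⊆ T), uk k' B T := by
          apply Finset.sum_congr rfl
          intro T hT
          rw [mem_filter, mem_powersetCard] at hT
          exact hu B hB T hT.1.1 hT.1.2
        rw [e3] at e1
        have e4 : ∑ T ∈ (inner Q).filter (fun T => e ⊆ T ∧ T ⊆ B), hk k T e =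
            ∑ T ∈ (inner Q).filter (fun T => e ⊆ T ∧ T ⊆ B), hk k' T e := by
          rw [← e2] at e1
          exact add_right_cancel e1
        rw [← Finset.sum_filter]
        have e5 : ((B.powersetCard 3).filter (fun T => e ⊆ T)).filter (fun T => T ∈ inner Q) =
            (inner Q).filter (fun T => e ⊆ T ∧ T ⊆ B) := by
          ext T
          rw [mem_filter, mem_filter, mem_filter, mem_powersetCard]
          constructor
          · rintro ⟨⟨⟨h5, -⟩, h6⟩, h7⟩
            exact ⟨h7, h6, h5⟩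
          · rintro ⟨h7, h6, h5⟩
            exact ⟨⟨⟨h5, Setup.inner_card_three h7⟩, h6⟩, h7⟩
        rw [e5, Finset.sum_sub_distrib, e4, sub_self])
      (by
        by_cases hcl : e ∈ closedPairs L Q
        · right
          refine ⟨TE ⟨e, hcl⟩, (hTE ⟨e, hcl⟩).1, (hTE ⟨e, hcl⟩).2, ?_⟩
          rw [if_pos (hTE ⟨e, hcl⟩).1, h3 ⟨e, hcl⟩, sub_self]
        · left
          obtain ⟨A, hA, -, -, -, hTA, -⟩ := h.exists_pair hT
          unfold closedPairs at hcl
          rw [mem_filter, mem_biUnion] at hcl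
          push Not at hcl
          obtain ⟨B, hB, heB, hBQ⟩ := hcl ⟨A, hA, mem_powersetCard.2 ⟨heT.trans hTA, he⟩⟩
          exact ⟨B, hB, heB, hBQ⟩)
      hT heT
    rw [if_pos hT] at h5
    exact sub_eq_zero.1 h5
  funext y
  rcases y with ⟨⟨T, e⟩, hy⟩ | ⟨⟨B, T⟩, hy⟩
  · have hy' := mem_YI.1 hy
    have h5 := hh e hy'.2.2 T hy'.1 hy'.2.1
    unfold hk at h5
    rw [dif_pos hy, dif_pos hy] at h5
    exact h5
  · have hy' := mem_YJ.1 hy
    have h5 := hu B hy'.1 T hy'.2.1 hy'.2.2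
    unfold uk at h5
    rw [dif_pos hy, dif_pos hy] at h5
    exact h5

/-- The number of components of labels is at most the number of closed pairs plus one. -/
theorem partA {L Q : Finset (Finset W)} (h : Setup L Q) {ι : Type*} [Fintype ι]
    (r : ι → Finset W × W) (hrQ : ∀ i, (r i).1 ∈ Q ∧ (r i).2 ∈ (r i).1)
    (hr : ∀ i j, Relation.ReflTransGen (LAdj Q) (r i) (r j) → i = j) :
    Fintype.card ι ≤ (closedPairs L Q).card + 1 := by
  classical
  obtain ⟨B₀, hB₀⟩ := h.ne
  have hne : B₀.Nonempty := by rw [← card_pos, h.card B₀ (h.sub hB₀)]; norm_num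
  obtain ⟨z₀, hz₀⟩ := hne
  have hBT : ∀ T : ↥(inner Q), ∃ B, B ∈ Q ∧ T.1 ⊆ B := by
    intro T
    obtain ⟨A, hA, -, -, -, hTA, -⟩ := h.exists_pair T.2
    exact ⟨A, hA, hTA⟩
  choose BT hBT using hBT
  have hTE : ∀ e : ↥(closedPairs L Q), ∃ T, T ∈ inner Q ∧ e.1 ⊆ T := by
    intro e
    obtain ⟨T, hT, heT⟩ := exists_inner_of_closed h e.2
    exact ⟨T, hT, heT⟩
  choose TE hTE using hTE
  have hb := card_bound (MM Q) (A := ι → ZMod 2)
    (D := (↥Q → ZMod 2) × (↥(inner Q) → ZMod 2) × (↥(closedPairs L Q) → ZMod 2))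
    (fun a => (fun x : ↥(XI Q) => ∑ z ∈ x.1.2, locf Q r a x.1.1 z, locf Q r a B₀ z₀))
    (by
      intro a a' haa
      simp only [Prod.mk.injEq] at haa
      apply phi_injective h r hrQ hr hB₀ hz₀ _ haa.2
      intro B hB e heB he
      exact congrFun haa.1 ⟨⟨B, e⟩, mem_XI.2 ⟨hB, heB, he⟩⟩)
    (by
      intro a
      funext y
      rcases y with y | y
      · refine (MM_inl Q (fun B e => ∑ z ∈ e, locf Q r a B z) y).trans ?_
        obtain ⟨⟨T, e⟩, hy⟩ := y
        have hy' := mem_YI.1 hy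
        obtain ⟨A, hA, B, hB, hne, hTA, hTB, hfil, hint⟩ := h.exists_pair hy'.1
        show ∑ B ∈ Q.filter (fun B => T ⊆ B), ∑ z ∈ e, locf Q r a B z = 0
        rw [hfil, sum_pair hne]
        have h1 : ∑ z ∈ e, locf Q r a A z = ∑ z ∈ e, locf Q r a B z := by
          apply Finset.sum_congr rfl
          intro z hz
          apply locf_adj
          exact ⟨hA, hB, by rw [hint]; exact Setup.inner_card_three hy'.1, rfl,
            hTA (hy'.2.1 hz), hTB (hy'.2.1 hz)⟩
        rw [h1]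
        exact CharTwo.add_self_eq_zero _
      · refine (MM_inr Q (fun B e => ∑ z ∈ e, locf Q r a B z) y).trans ?_
        obtain ⟨⟨B, T⟩, hy⟩ := y
        have hy' := mem_YJ.1 hy
        exact sum_pairs_zero hy'.2.2 _)
    (fun k => (fun B => pk k B.1, fun T => uk k (BT T) T.1, fun e => hk k (TE e) e.1))
    (by
      intro k k' hk0 hk0' hkk
      simp only [Prod.mk.injEq] at hkk
      exact psi_injective h BT hBT TE hTE k k' hk0 hk0' (fun B hB => congrFun hkk.1 ⟨B, hB⟩)
        (fun T => congrFun hkk.2.1 T) (fun e => congrFun hkk.2.2 e))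
  rw [Nat.card_fun, Nat.card_prod, Nat.card_prod, Nat.card_fun, Nat.card_fun, Nat.card_fun,
    Nat.card_zmod] at hb
  simp only [Nat.card_eq_fintype_card, Fintype.card_coe, Fintype.card_sum, card_XI h, card_YI h,
    card_YJ h] at hb
  have h3 := h.three_card_eq
  have h4 : (2 : ℕ) ^ (Fintype.card ι + (3 * (inner Q).card + 4 * Q.card)) ≤
      2 ^ (1 + (Q.card + ((inner Q).card + (closedPairs L Q).card)) + 6 * Q.card) := by
    calc (2 : ℕ) ^ (Fintype.card ι + (3 * (inner Q).card + 4 * Q.card))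
        = 2 ^ Fintype.card ι * 2 ^ (3 * (inner Q).card + 4 * Q.card) := by rw [pow_add]
      _ ≤ _ := hb
      _ = _ := by
        rw [pow_add, pow_add, pow_add, pow_add, pow_one]
  have h5 := (Nat.pow_le_pow_iff_right (by norm_num : 1 < 2)).1 h4
  omega

end Rot
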