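import Pool.Agent.Helper90.ROT.Compl
import Pool.Agent.Helper90.ROT.Inj
import Pool.Agent.Helper90.ROT.PartA2

/-!
# The local theorem
-/

namespace Rot

open Finset DualGraph

variable {V W : Type*} [DecidableEq V] [DecidableEq W]

theorem IsNormalPM.isPM' {d : ℕ} {K : Set (Finset V)} (h : IsNormalPM d K) : IsPM d K where
  nonempty := h.nonempty
  card_facet := h.card_facet
  ridge := h.ridge
  connected := by
    intro x A hA B hB hxA hxB
    have h1 := h.connected {x} A hA B hB (by simpa using hxA) (by simpa using hxB)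
    refine Relation.ReflTransGen.mono ?_ _ _ h1
    rintro X Y ⟨h2, h3, h4⟩
    exact ⟨h2, h3 (mem_singleton_self x), h4⟩

section

variable {K : Finset (Finset V)} {L : Finset (Finset W)} {Φ : Finset V → Finset W}
  {φ : Finset V → V → W} {v : V}

/-- The facets that correspond to facets containing `v`. -/
def star (K : Finset (Finset V)) (Φ : Finset V → Finset W) (v : V) : Finset (Finset W) :=
  (K.filter (fun A => v ∈ A)).image Φ

theorem mem_star {B : Finset W} : B ∈ star K Φ v ↔ ∃ A ∈ K, v ∈ A ∧ Φ A = B := by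
  unfold star
  rw [mem_image]
  constructor
  · rintro ⟨A, hA, rfl⟩
    rw [mem_filter] at hA
    exact ⟨A, hA.1, hA.2, rfl⟩
  · rintro ⟨A, hA, hv, rfl⟩
    exact ⟨A, mem_filter.2 ⟨hA, hv⟩, rfl⟩

theorem star_iff (c : Ctx (K : Set (Finset V)) (L : Set (Finset W)) Φ φ v) {A : Finset V}
    (hA : A ∈ K) : Φ A ∈ star K Φ v ↔ v ∈ A := by
  rw [mem_star]
  constructor
  · rintro ⟨B, hB, hvB, h⟩
    rwa [c.hΦ.bij.injOn hB hA h] at hvB
  · intro h
    exact ⟨A, hA, h, rfl⟩

/-- The homological hypothesis of part A. -/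
theorem star_hom (hK : IsNormalPM 3 (K : Set (Finset V))) (hL : IsNormalPM 3 (L : Set (Finset W)))
    (hH : H2Zero L) (c : Ctx (K : Set (Finset V)) (L : Set (Finset W)) Φ φ v)
    (hv : ∃ A ∈ K, v ∈ A) (w : Finset W → ZMod 2)
    (hw : ∀ e : Finset W, e.card = 2 →
      ∑ T ∈ (ridges (star K Φ v)).filter (fun T => e ⊆ T), w T = 0) :
    ∃ p : Finset W → ZMod 2, ∀ T ∈ ridges (star K Φ v),
      w T = ∑ B ∈ (star K Φ v).filter (fun B => T ⊆ B), p B := by
  classical
  have hsub : star K Φ v ⊆ L := by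
    intro B hB
    obtain ⟨A, hA, -, rfl⟩ := mem_star.1 hB
    exact c.hΦ.mem hA
  have hrsub : ridges (star K Φ v) ⊆ ridges L := by
    intro T hT
    rw [Setup.mem_ridges] at hT ⊢
    obtain ⟨B, hB, h1, h2⟩ := hT
    exact ⟨B, hsub hB, h1, h2⟩
  obtain ⟨p, hp⟩ := hH (fun T => if T ∈ ridges (star K Φ v) then w T else 0) (by
    intro e he
    refine Eq.trans ?_ (hw e he)
    rw [← Finset.sum_filter]
    apply Finset.sum_congr _ (fun _ _ => rfl)
    ext T
    rw [mem_filter, mem_filter, mem_filter]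
    constructor
    · rintro ⟨⟨h1, h2⟩, h3⟩
      exact ⟨h3, h2⟩
    · rintro ⟨h3, h2⟩
      exact ⟨⟨hrsub h3, h2⟩, h3⟩)
  obtain ⟨κ, hκ⟩ := compl_const hK v hv (fun A => p (Φ A)) (by
    intro A hA B hB hvA hvB hAB
    have hAB' : (Φ A ∩ Φ B).card = 3 := (c.hΦ.adj A hA B hB).1 hAB
    have hΦA : Φ A ∈ L := c.hΦ.mem hA
    have hΦB : Φ B ∈ L := c.hΦ.mem hB
    have hTr : Φ A ∩ Φ B ∈ ridges L :=
      Setup.mem_ridges.2 ⟨Φ A, hΦA, inter_subset_left, hAB'⟩
    obtain ⟨Y, hY, hYX, hTY, hfil, hint⟩ := pair_of hL hΦA (T := Φ A ∩ Φ B) inter_subset_left hAB'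
    have hne : Φ B ≠ Φ A := by
      intro h
      rw [h, inter_self] at hAB'
      have := hL.card_facet _ hΦA
      omega
    have hBY : Φ B = Y := by
      have h1 : Φ B ∈ L.filter (fun Z => Φ A ∩ Φ B ⊆ Z) :=
        mem_filter.2 ⟨hΦB, inter_subset_right⟩
      rw [hfil, mem_insert, mem_singleton] at h1
      rcases h1 with h | h
      · exact absurd h hne
      · exact h
    have h1 := hp _ hTr
    have hnot : Φ A ∩ Φ B ∉ ridges (star K Φ v) := by
      intro h
      obtain ⟨Z, hZ, hTZ, -⟩ := Setup.mem_ridges.1 h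
      have h2 : Z ∈ L.filter (fun Z => Φ A ∩ Φ B ⊆ Z) := mem_filter.2 ⟨hsub hZ, hTZ⟩
      rw [hfil, mem_insert, mem_singleton, ← hBY] at h2
      rcases h2 with rfl | rfl
      · exact hvA ((star_iff c hA).1 hZ)
      · exact hvB ((star_iff c hB).1 hZ)
    rw [if_neg hnot, hfil, sum_pair hYX.symm, ← hBY] at h1
    have h3 := CharTwo.add_self_eq_zero (p (Φ B))
    show p (Φ A) = p (Φ B)
    linear_combination (-1 : ZMod 2) * h1 - h3)
  refine ⟨fun B => p B + κ, ?_⟩
  intro T hT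
  have h1 := hp T (hrsub hT)
  rw [if_pos hT] at h1
  obtain ⟨X, hX, hTX, hTc⟩ := Setup.mem_ridges.1 hT
  obtain ⟨Y, hY, hYX, hTY, hfil, hint⟩ := pair_of hL (hsub hX) hTX hTc
  rw [hfil, sum_pair hYX.symm] at h1
  have h4 := CharTwo.add_self_eq_zero κ
  by_cases hYS : Y ∈ star K Φ v
  · have h2 : (star K Φ v).filter (fun B => T ⊆ B) = {X, Y} := by
      ext Z
      rw [mem_filter, mem_insert, mem_singleton]
      constructor
      · rintro ⟨h2, h3⟩
        have : Z ∈ L.filter (fun Z => T ⊆ Z) := mem_filter.2 ⟨hsub h2, h3⟩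
        rw [hfil, mem_insert, mem_singleton] at this
        exact this
      · rintro (rfl | rfl)
        · exact ⟨hX, hTX⟩
        · exact ⟨hYS, hTY⟩
    rw [h2, sum_pair hYX.symm, h1]
    linear_combination (-1 : ZMod 2) * h4
  · have h2 : (star K Φ v).filter (fun B => T ⊆ B) = {X} := by
      ext Z
      rw [mem_filter, mem_singleton]
      constructor
      · rintro ⟨h2, h3⟩
        have : Z ∈ L.filter (fun Z => T ⊆ Z) := mem_filter.2 ⟨hsub h2, h3⟩
        rw [hfil, mem_insert, mem_singleton] at this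
        rcases this with h | h
        · exact h
        · exact absurd (h ▸ h2) hYS
      · rintro rfl
        exact ⟨hX, hTX⟩
    obtain ⟨A, hA, rfl⟩ := c.hΦ.bij.surjOn (show Y ∈ (L : Set (Finset W)) from hY)
    have h5 : p (Φ A) = κ := hκ A hA (fun h => hYS ((star_iff c hA).2 h))
    rw [h2, sum_singleton, h1, h5]

theorem star_setup (hK : IsNormalPM 3 (K : Set (Finset V)))
    (hL : IsNormalPM 3 (L : Set (Finset W)))
    (hH : H2Zero L) (c : Ctx (K : Set (Finset V)) (L : Set (Finset W)) Φ φ v)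
    (hv : ∃ A ∈ K, v ∈ A) : Setup L (star K Φ v) where
  card := fun B hB => hL.card_facet B hB
  ridge := fun B hB T hTB hT => hL.ridge B hB T hTB hT
  edge := fun e _ A hA B hB heA heB => hL.connected e A hA B hB heA heB
  sub := by
    intro B hB
    obtain ⟨A, hA, -, rfl⟩ := mem_star.1 hB
    exact c.hΦ.mem hA
  ne := by
    obtain ⟨A, hA, hvA⟩ := hv
    exact ⟨Φ A, (star_iff c hA).2 hvA⟩
  conn := by
    intro X hX Y hY
    obtain ⟨A, hA, hvA, rfl⟩ := mem_star.1 hX
    obtain ⟨B, hB, hvB, rfl⟩ := mem_star.1 hY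
    have hch := c.hK.connected v A hA B hB hvA hvB
    have key : ∀ B, Relation.ReflTransGen (fun X Y : Finset V => Y ∈ (K : Set (Finset V)) ∧
        v ∈ Y ∧ (X ∩ Y).card = 3) A B → B ∈ K ∧ v ∈ B ∧ Relation.ReflTransGen
        (fun X Y : Finset W => Y ∈ star K Φ v ∧ (X ∩ Y).card = 3) (Φ A) (Φ B) := by
      intro B hB
      induction hB with
      | refl => exact ⟨hA, hvA, Relation.ReflTransGen.refl⟩
      | @tail X Y hX hXY ih =>
        obtain ⟨h1, h2, h3⟩ := ih
        have hY : Y ∈ K := hXY.1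
        exact ⟨hY, hXY.2.1, h3.tail ⟨(star_iff c hY).2 hXY.2.1, (c.hΦ.adj X h1 Y hY).1 hXY.2.2⟩⟩
    exact (key B hch).2.2
  bdry := by
    intro X hX
    obtain ⟨A, hA, hvA, rfl⟩ := mem_star.1 hX
    have hΦA : Φ A ∈ L := c.hΦ.mem hA
    refine ⟨φ A v, c.mem hA hvA, ?_, ?_⟩
    · intro Y hY hsub
      obtain ⟨B, hB, hvB, rfl⟩ := mem_star.1 hY
      by_contra hne
      have hΦB : Φ B ∈ L := c.hΦ.mem hB
      have h1 : ((Φ A).erase (φ A v)).card = 3 := by
        rw [card_erase_of_mem (c.mem hA hvA), hL.card_facet _ hΦA]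
      have h2 : Φ A ∩ Φ B = (Φ A).erase (φ A v) :=
        inter_eq_of_ne (fun B hB => hL.card_facet B hB) hΦA hΦB (fun h => hne h.symm)
          (erase_subset _ _) hsub h1
      have h3 : (A ∩ B).card = 3 := (c.hΦ.adj A hA B hB).2 (by rw [h2, h1])
      have h4 : φ A v ∈ Φ B := (c.adj hA hB h3 hvA).1 hvB
      have h5 : φ A v ∈ Φ A ∩ Φ B := mem_inter.2 ⟨c.mem hA hvA, h4⟩
      rw [h2] at h5
      simp at h5
    · intro y hy hyv
      obtain ⟨j, hj, rfl⟩ := c.surj hA hy
      obtain ⟨B, hB, hAB, hjB⟩ := exists_nb c.hK hA hj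
      have h1 := inter_eq_erase c.hK.card_facet hA hAB hj hjB
      have hjv : j ≠ v := by
        rintro rfl
        exact hyv rfl
      have hvB : v ∈ B := by
        have : v ∈ A ∩ B := by rw [h1]; exact mem_erase.2 ⟨hjv.symm, hvA⟩
        exact (mem_inter.1 this).2
      refine ⟨Φ B, (star_iff c hB).2 hvB, ?_, ?_⟩
      · intro h
        have := c.hΦ.bij.injOn hB hA h
        exact hjB (this ▸ hj)
      · intro z hz
        rw [mem_erase] at hz
        obtain ⟨i, hi, rfl⟩ := c.surj hA hz.2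
        have hij : i ≠ j := by
          rintro rfl
          exact hz.1 rfl
        have : i ∈ A ∩ B := by rw [h1]; exact mem_erase.2 ⟨hij, hi⟩
        exact (c.adj hA hB hAB hi).1 (mem_inter.1 this).2
  hom := fun w hw => star_hom hK hL hH c hv w hw

/-- Chains of labelled facets come from chains on the other side. -/
theorem lk_of_ladj (c : Ctx (K : Set (Finset V)) (L : Set (Finset W)) Φ φ v) {A B : Finset V}
    (hA : A ∈ K) (hvA : v ∈ A) (hB : B ∈ K) {x y : W}
    (h : Relation.ReflTransGen (LAdj (star K Φ v)) (Φ A, x) (Φ B, y)) :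
    Relation.ReflTransGen (LK (K : Set (Finset V)) Φ v) (A, x) (B, y) := by
  have key : ∀ q : Finset W × W, Relation.ReflTransGen (LAdj (star K Φ v)) (Φ A, x) q →
      ∃ D ∈ K, v ∈ D ∧ Φ D = q.1 ∧
        Relation.ReflTransGen (LK (K : Set (Finset V)) Φ v) (A, x) (D, q.2) := by
    intro q hq
    induction hq with
    | refl => exact ⟨A, hA, hvA, rfl, Relation.ReflTransGen.refl⟩
    | @tail P R hP hPR ih =>
      obtain ⟨D, hD, hvD, hDP, h1⟩ := ih
      obtain ⟨h2, h3, h4, h5, h6, h7⟩ := hPR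
      obtain ⟨E, hE, hvE, hER⟩ := mem_star.1 h3
      refine ⟨E, hE, hvE, hER, h1.tail ?_⟩
      refine ⟨hD, hE, hvD, hvE, ?_, h5, ?_, ?_⟩
      · apply (c.hΦ.adj D hD E hE).2
        rw [hDP, hER]; exact h4
      · rw [hDP]; exact h6
      · rw [hER]; exact h7
  obtain ⟨D, hD, -, hDB, h1⟩ := key _ h
  have : D = B := c.hΦ.bij.injOn hD hB hDB
  rw [this] at h1
  exact h1

/-- The label at a vertex `o` does not change at the ridges that contain `v` and `o`. -/
theorem label_const (hK : IsNormalPM 3 (K : Set (Finset V)))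
    (hL : IsNormalPM 3 (L : Set (Finset W)))
    (hH : H2Zero L) (c : Ctx (K : Set (Finset V)) (L : Set (Finset W)) Φ φ v)
    {τ σ : Finset V} (hτ : τ ∈ K) (hσ : σ ∈ K) (hvτ : v ∈ τ) (hvσ : v ∈ σ)
    {o : V} (hov : o ≠ v) (hoτ : o ∈ τ) (hoσ : o ∈ σ) : φ τ o = φ σ o := by
  classical
  by_contra hne
  have hset := star_setup hK hL hH c ⟨τ, hτ, hvτ⟩
  have hcl : ∀ C : ↥(closedPairs L (star K Φ v)), Closed (K : Set (Finset V)) Φ v C.1 := by
    rintro ⟨C, hC⟩
    unfold closedPairs at hC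
    rw [mem_filter, mem_biUnion] at hC
    obtain ⟨⟨X, hX, hCX⟩, h2⟩ := hC
    rw [mem_powersetCard] at hCX
    refine ⟨hCX.2, ?_, ?_⟩
    · obtain ⟨A, hA, hvA, rfl⟩ := mem_star.1 hX
      exact ⟨A, hA, hCX.1⟩
    · intro A hA hCA
      exact (star_iff c hA).1 (h2 (Φ A) (c.hΦ.mem hA) hCA)
  have hex : ∀ C : ↥(closedPairs L (star K Φ v)), ∃ (f : V → ZMod 2) (y : W) (A : Finset V),
      f o = 0 ∧ IsF (K : Set (Finset V)) Φ φ v C.1 f ∧ y ∈ C.1 ∧
      (∀ A ∈ (K : Set (Finset V)), C.1 ⊆ Φ A → IsY φ v C.1 f A y) ∧ A ∈ K ∧ C.1 ⊆ Φ A := by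
    intro C
    obtain ⟨f, hfo, hf⟩ := c.exists_f (hcl C) o
    obtain ⟨y, hyC, hy⟩ := c.exists_y (hcl C) hf
    obtain ⟨A, hA, hCA⟩ := (hcl C).2.1
    exact ⟨f, y, A, hfo, hf, hyC, hy, hA, hCA⟩
  choose F Y AA hFo hF hYC hY hAA hCA using hex
  have hvA : ∀ C, v ∈ AA C := fun C => (hcl C).2.2 (AA C) (hAA C) (hCA C)
  let r : ↥(closedPairs L (star K Φ v)) ⊕ Bool → Finset V × W := fun i =>
    match i with
    | Sum.inl C => (AA C, Y C)
    | Sum.inr true => (τ, φ τ o)
    | Sum.inr false => (σ, φ σ o)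
  have hr1 : ∀ i, (r i).1 ∈ K ∧ v ∈ (r i).1 ∧ (r i).2 ∈ Φ (r i).1 := by
    rintro (C | b)
    · exact ⟨hAA C, hvA C, hCA C (hYC C)⟩
    · cases b
      · exact ⟨hσ, hvσ, c.mem hσ hoσ⟩
      · exact ⟨hτ, hvτ, c.mem hτ hoτ⟩
  have hsnd : ∀ {p q : Finset V × W}, Relation.ReflTransGen (LK (K : Set (Finset V)) Φ v) p q →
      p.2 = q.2 := by
    intro p q h
    induction h with
    | refl => rfl
    | tail _ h2 ih => exact ih.trans h2.2.2.2.2.2.1
  have hdist : ∀ i j, Relation.ReflTransGen (LK (K : Set (Finset V)) Φ v) (r i) (r j) → i = j := by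
    have hCb : ∀ C b, ¬ Relation.ReflTransGen (LK (K : Set (Finset V)) Φ v) (r (Sum.inl C))
        (r (Sum.inr b)) := by
      intro C b
      cases b
      · exact c.extra (hcl C) (hF C) hov (hFo C) (hY C) (hCA C) hσ hvσ hoσ
      · exact c.extra (hcl C) (hF C) hov (hFo C) (hY C) (hCA C) hτ hvτ hoτ
    rintro (C | b) (C' | b') h
    · have h1 : Y C = Y C' := hsnd h
      have h2 : C.1 = C'.1 := by
        apply c.label_inj (hcl C) (hcl C') (hF C) (hF C') hτ hvτ hoτ hov (hFo C) (hFo C')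
          (y := Y C) (hYC C) (by rw [h1]; exact hYC C') (hY C) (by rw [h1]; exact hY C')
          (hAA C) (hAA C') (hCA C) (hCA C')
        have h3 : Relation.ReflTransGen (LK (K : Set (Finset V)) Φ v) (AA C, Y C)
            (AA C', Y C') := h
        rw [← h1] at h3
        exact h3
      rw [Subtype.ext h2]
    · exact absurd h (hCb C b')
    · exact absurd (Ctx.lk_symm h) (hCb C' b)
    · cases b <;> cases b'
      · rfl
      · exact absurd (hsnd h).symm hne
      · exact absurd (hsnd h) hne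
      · rfl
  have h := partA hset (fun i => (Φ (r i).1, (r i).2))
    (fun i => ⟨(star_iff c (hr1 i).1).2 (hr1 i).2.1, (hr1 i).2.2⟩)
    (fun i j hij => hdist i j (lk_of_ladj c (hr1 i).1 (hr1 i).2.1 (hr1 j).1 hij))
  rw [Fintype.card_sum, Fintype.card_coe, Fintype.card_bool] at h
  omega

end

end Rot
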