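import Pool.Agent.Helper90.ROT.Count

/-!
# Part A: the matrix
-/

namespace Rot

open Finset Matrix

variable {W : Type*} [DecidableEq W]

/-- Facets of `Q` with an edge. -/
def XI (Q : Finset (Finset W)) : Finset (Σ _ : Finset W, Finset W) :=
  Q.sigma (fun B => B.powersetCard 2)

/-- Interior ridges with an edge. -/
def YI (Q : Finset (Finset W)) : Finset (Σ _ : Finset W, Finset W) :=
  (inner Q).sigma (fun T => T.powersetCard 2)

/-- Facets of `Q` with a ridge. -/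
def YJ (Q : Finset (Finset W)) : Finset (Σ _ : Finset W, Finset W) :=
  Q.sigma (fun B => B.powersetCard 3)

def m1 (y x : Σ _ : Finset W, Finset W) : ZMod 2 := if y.1 ⊆ x.1 ∧ y.2 = x.2 then 1 else 0

def m2 (y x : Σ _ : Finset W, Finset W) : ZMod 2 := if y.1 = x.1 ∧ x.2 ⊆ y.2 then 1 else 0

/-- The matrix of the constraints. -/
def MM (Q : Finset (Finset W)) : Matrix (↥(YI Q) ⊕ ↥(YJ Q)) ↥(XI Q) (ZMod 2) :=
  Matrix.of fun y x => Sum.elim (fun y => m1 y.1 x.1) (fun y => m2 y.1 x.1) y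

theorem mem_XI {Q : Finset (Finset W)} {B e : Finset W} :
    (⟨B, e⟩ : Σ _ : Finset W, Finset W) ∈ XI Q ↔ B ∈ Q ∧ e ⊆ B ∧ e.card = 2 := by
  unfold XI; rw [mem_sigma, mem_powersetCard]

theorem mem_YI {Q : Finset (Finset W)} {T e : Finset W} :
    (⟨T, e⟩ : Σ _ : Finset W, Finset W) ∈ YI Q ↔ T ∈ inner Q ∧ e ⊆ T ∧ e.card = 2 := by
  unfold YI; rw [mem_sigma, mem_powersetCard]

theorem mem_YJ {Q : Finset (Finset W)} {B T : Finset W} :
    (⟨B, T⟩ : Σ _ : Finset W, Finset W) ∈ YJ Q ↔ B ∈ Q ∧ T ⊆ B ∧ T.card = 3 := by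
  unfold YJ; rw [mem_sigma, mem_powersetCard]

theorem MM_inl (Q : Finset (Finset W)) (F : Finset W → Finset W → ZMod 2) (y : ↥(YI Q)) :
    (MM Q).mulVec (fun x : ↥(XI Q) => F x.1.1 x.1.2) (Sum.inl y) =
      ∑ B ∈ Q.filter (fun B => y.1.1 ⊆ B), F B y.1.2 := by
  obtain ⟨⟨T, e'⟩, hy⟩ := y
  have hy' := mem_YI.1 hy
  show ∑ x : ↥(XI Q), m1 ⟨T, e'⟩ x.1 * F x.1.1 x.1.2 = _
  rw [Finset.sum_coe_sort (XI Q) (fun x => m1 ⟨T, e'⟩ x * F x.1 x.2)]
  unfold XI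
  rw [Finset.sum_sigma, Finset.sum_filter]
  apply Finset.sum_congr rfl
  intro B hB
  show ∑ e ∈ B.powersetCard 2, m1 ⟨T, e'⟩ ⟨B, e⟩ * F B e = if T ⊆ B then F B e' else 0
  unfold m1
  by_cases hT : T ⊆ B
  · rw [if_pos hT, Finset.sum_eq_single e']
    · simp [hT]
    · intro e he hne
      rw [if_neg (by rintro ⟨-, h⟩; exact hne h.symm), zero_mul]
    · intro h
      exact absurd (mem_powersetCard.2 ⟨hy'.2.1.trans hT, hy'.2.2⟩) h
  · rw [if_neg hT]
    apply Finset.sum_eq_zero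
    intro e he
    rw [if_neg (by rintro ⟨h, -⟩; exact hT h), zero_mul]

theorem MM_inr (Q : Finset (Finset W)) (F : Finset W → Finset W → ZMod 2) (y : ↥(YJ Q)) :
    (MM Q).mulVec (fun x : ↥(XI Q) => F x.1.1 x.1.2) (Sum.inr y) =
      ∑ e ∈ y.1.2.powersetCard 2, F y.1.1 e := by
  obtain ⟨⟨B', T⟩, hy⟩ := y
  have hy' := mem_YJ.1 hy
  show ∑ x : ↥(XI Q), m2 ⟨B', T⟩ x.1 * F x.1.1 x.1.2 = _
  rw [Finset.sum_coe_sort (XI Q) (fun x => m2 ⟨B', T⟩ x * F x.1 x.2)]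
  unfold XI
  rw [Finset.sum_sigma, Finset.sum_eq_single B']
  · show ∑ e ∈ B'.powersetCard 2, m2 ⟨B', T⟩ ⟨B', e⟩ * F B' e = ∑ e ∈ T.powersetCard 2, F B' e
    have h1 : T.powersetCard 2 = (B'.powersetCard 2).filter (fun e => e ⊆ T) := by
      ext e
      rw [mem_filter, mem_powersetCard, mem_powersetCard]
      constructor
      · rintro ⟨h1, h2⟩
        exact ⟨⟨h1.trans hy'.2.1, h2⟩, h1⟩
      · rintro ⟨⟨-, h2⟩, h1⟩
        exact ⟨h1, h2⟩
    rw [h1, Finset.sum_filter]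
    apply Finset.sum_congr rfl
    intro e he
    unfold m2
    simp
  · intro B hB hne
    apply Finset.sum_eq_zero
    intro e he
    show m2 ⟨B', T⟩ ⟨B, e⟩ * F B e = 0
    unfold m2
    rw [if_neg (by rintro ⟨h, -⟩; exact hne h.symm), zero_mul]
  · intro h
    exact absurd hy'.1 h

/-- First part of a vector, extended by zero. -/
noncomputable def hk {Q : Finset (Finset W)} (k : ↥(YI Q) ⊕ ↥(YJ Q) → ZMod 2)
    (T e : Finset W) : ZMod 2 :=
  open Classical in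
  if h : (⟨T, e⟩ : Σ _ : Finset W, Finset W) ∈ YI Q then k (Sum.inl ⟨_, h⟩) else 0

/-- Second part of a vector, extended by zero. -/
noncomputable def uk {Q : Finset (Finset W)} (k : ↥(YI Q) ⊕ ↥(YJ Q) → ZMod 2)
    (B T : Finset W) : ZMod 2 :=
  open Classical in
  if h : (⟨B, T⟩ : Σ _ : Finset W, Finset W) ∈ YJ Q then k (Sum.inr ⟨_, h⟩) else 0

theorem MM_transpose {Q : Finset (Finset W)} (k : ↥(YI Q) ⊕ ↥(YJ Q) → ZMod 2)
    (hk0 : (MM Q)ᵀ.mulVec k = 0) {B e : Finset W} (hB : B ∈ Q) (he : e ⊆ B) (hc : e.card = 2) :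
    ∑ T ∈ (inner Q).filter (fun T => e ⊆ T ∧ T ⊆ B), hk k T e +
      ∑ T ∈ (B.powersetCard 3).filter (fun T => e ⊆ T), uk k B T = 0 := by
  have h0 := congrFun hk0 ⟨⟨B, e⟩, mem_XI.2 ⟨hB, he, hc⟩⟩
  rw [Pi.zero_apply] at h0
  rw [← h0]
  show _ = ∑ y : ↥(YI Q) ⊕ ↥(YJ Q), (MM Q)ᵀ ⟨⟨B, e⟩, mem_XI.2 ⟨hB, he, hc⟩⟩ y * k y
  rw [Fintype.sum_sum_type]
  congr 1
  · have h1 : ∀ y : ↥(YI Q), (MM Q)ᵀ ⟨⟨B, e⟩, mem_XI.2 ⟨hB, he, hc⟩⟩ (Sum.inl y) * k (Sum.inl y) =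
        (fun y => m1 y ⟨B, e⟩ * hk k y.1 y.2) y.1 := by
      intro y
      have : hk k y.1.1 y.1.2 = k (Sum.inl y) := by
        unfold hk
        rw [dif_pos y.2]
      show _ = m1 y.1 ⟨B, e⟩ * hk k y.1.1 y.1.2
      rw [this]
      rfl
    rw [Finset.sum_congr rfl (fun y _ => h1 y),
      Finset.sum_coe_sort (YI Q) (fun y => m1 y ⟨B, e⟩ * hk k y.1 y.2)]
    unfold YI
    rw [Finset.sum_sigma, Finset.sum_filter]
    apply Finset.sum_congr rfl
    intro T hT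
    show _ = ∑ e' ∈ T.powersetCard 2, m1 ⟨T, e'⟩ ⟨B, e⟩ * hk k T e'
    unfold m1
    by_cases h2 : e ⊆ T ∧ T ⊆ B
    · rw [if_pos h2, Finset.sum_eq_single e]
      · simp [h2.2]
      · intro e' he' hne
        rw [if_neg (by rintro ⟨-, h⟩; exact hne h), zero_mul]
      · intro h
        exact absurd (mem_powersetCard.2 ⟨h2.1, hc⟩) h
    · rw [if_neg h2]
      symm
      apply Finset.sum_eq_zero
      intro e' he'
      rw [mem_powersetCard] at he'
      rw [if_neg (by rintro ⟨h3, h4⟩; exact h2 ⟨by simp only at h4; rw [← h4]; exact he'.1, h3⟩),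
        zero_mul]
  · have h1 : ∀ y : ↥(YJ Q), (MM Q)ᵀ ⟨⟨B, e⟩, mem_XI.2 ⟨hB, he, hc⟩⟩ (Sum.inr y) * k (Sum.inr y) =
        (fun y => m2 y ⟨B, e⟩ * uk k y.1 y.2) y.1 := by
      intro y
      have : uk k y.1.1 y.1.2 = k (Sum.inr y) := by
        unfold uk
        rw [dif_pos y.2]
      show _ = m2 y.1 ⟨B, e⟩ * uk k y.1.1 y.1.2
      rw [this]
      rfl
    rw [Finset.sum_congr rfl (fun y _ => h1 y),
      Finset.sum_coe_sort (YJ Q) (fun y => m2 y ⟨B, e⟩ * uk k y.1 y.2)]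
    unfold YJ
    symm
    rw [Finset.sum_sigma, Finset.sum_eq_single B]
    · rw [Finset.sum_filter]
      apply Finset.sum_congr rfl
      intro T hT
      show m2 ⟨B, T⟩ ⟨B, e⟩ * uk k B T = _
      unfold m2
      simp
    · intro B' hB' hne
      apply Finset.sum_eq_zero
      intro T hT
      show m2 ⟨B', T⟩ ⟨B, e⟩ * uk k B' T = 0
      unfold m2
      rw [if_neg (by rintro ⟨h, -⟩; exact hne h), zero_mul]
    · intro h
      exact absurd hB h

theorem card_XI {L Q : Finset (Finset W)} (h : Setup L Q) : (XI Q).card = 6 * Q.card := by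
  unfold XI
  rw [Finset.card_sigma]
  rw [Finset.sum_congr rfl (g := fun _ => 6) (by
    intro B hB
    rw [card_powersetCard, h.card B (h.sub hB)]; rfl), sum_const, smul_eq_mul, mul_comm]

theorem card_YI {L Q : Finset (Finset W)} (h : Setup L Q) : (YI Q).card = 3 * (inner Q).card := by
  unfold YI
  rw [Finset.card_sigma]
  rw [Finset.sum_congr rfl (g := fun _ => 3) (by
    intro T hT
    rw [card_powersetCard, Setup.inner_card_three hT]; rfl), sum_const, smul_eq_mul, mul_comm]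

theorem card_YJ {L Q : Finset (Finset W)} (h : Setup L Q) : (YJ Q).card = 4 * Q.card := by
  unfold YJ
  rw [Finset.card_sigma]
  rw [Finset.sum_congr rfl (g := fun _ => 4) (by
    intro B hB
    rw [card_powersetCard, h.card B (h.sub hB)]; rfl), sum_const, smul_eq_mul, mul_comm]

end Rot
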