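import Pool.Agent.Helper90.ROT.Main

/-!
# Oriented dual graphs determine three-dimensional homology spheres
-/

namespace Rot

open Finset DualGraph

variable {V W : Type*} [DecidableEq V] [DecidableEq W]

/-- The correspondence of vertices does not reflect the ridge `A ∩ B`: if some common vertex of
the adjacent facets `A` and `B` corresponds to the same vertex at `A` and at `B`, then all common
vertices do. -/
def NotReflected (K : Set (Finset V)) (Φ : Finset V → Finset W) (A B : Finset V) : Prop :=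
  ∀ x ∈ A ∩ B, ∀ u, Opp 3 K Φ A x u → Opp 3 K Φ B x u → Straight 3 K Φ A B

theorem inj4 {α : Type*} {a b c d : α} (h1 : a ≠ b) (h2 : a ≠ c) (h3 : a ≠ d) (h4 : b ≠ c)
    (h5 : b ≠ d) (h6 : c ≠ d) : Function.Injective ![a, b, c, d] := by
  intro i j hij
  fin_cases i <;> fin_cases j
  · rfl
  · exact absurd hij h1
  · exact absurd hij h2
  · exact absurd hij h3
  · exact absurd hij.symm h1
  · rfl
  · exact absurd hij h4
  · exact absurd hij h5
  · exact absurd hij.symm h2
  · exact absurd hij.symm h4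
  · rfl
  · exact absurd hij h6
  · exact absurd hij.symm h3
  · exact absurd hij.symm h5
  · exact absurd hij.symm h6
  · rfl

theorem image4 {α : Type*} [DecidableEq α] {a b c d : α} {A : Finset α} (hA : A.card = 4)
    (hinj : Function.Injective ![a, b, c, d]) (h1 : a ∈ A) (h2 : b ∈ A) (h3 : c ∈ A)
    (h4 : d ∈ A) : (Finset.univ.image ![a, b, c, d] : Finset α) = A := by
  apply eq_of_subset_of_card_le
  · intro q hq
    rw [mem_image] at hq
    obtain ⟨i, -, rfl⟩ := hq
    fin_cases i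
    · exact h1
    · exact h2
    · exact h3
    · exact h4
  · rw [card_image_of_injective _ hinj, hA]; simp

theorem update4 {α : Type*} {a b c d e : α} :
    Function.update ![a, b, c, d] 0 e = ![e, b, c, d] := by
  funext i
  fin_cases i
  · rfl
  · rfl
  · rfl
  · rfl

theorem swap4 {α : Type*} {a b c d : α} :
    ![a, b, c, d] ∘ Equiv.swap (2 : Fin 4) 3 = ![a, b, d, c] := by
  funext i
  fin_cases i
  · show ![a, b, c, d] (Equiv.swap (2 : Fin 4) 3 0) = a
    rw [Equiv.swap_apply_of_ne_of_ne (by decide) (by decide)]; rfl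
  · show ![a, b, c, d] (Equiv.swap (2 : Fin 4) 3 1) = b
    rw [Equiv.swap_apply_of_ne_of_ne (by decide) (by decide)]; rfl
  · show ![a, b, c, d] (Equiv.swap (2 : Fin 4) 3 2) = d
    rw [Equiv.swap_apply_left]; rfl
  · show ![a, b, c, d] (Equiv.swap (2 : Fin 4) 3 3) = c
    rw [Equiv.swap_apply_right]; rfl

/-- A ridge between two facets of the same sign is not reflected. -/
theorem notReflected_of_sign {K : Finset (Finset V)} {L : Finset (Finset W)}
    {Φ : Finset V → Finset W}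
    (hK : IsNormalPM 3 (K : Set (Finset V))) (hL : IsNormalPM 3 (L : Set (Finset W)))
    (hΦ : DualIso 3 (K : Set (Finset V)) (L : Set (Finset W)) Φ)
    {oK : (Fin 4 → V) → ℤ} {oL : (Fin 4 → W) → ℤ}
    (hoK : IsOrientation 3 (K : Set (Finset V)) oK) (hoL : IsOrientation 3 (L : Set (Finset W)) oL)
    {A B : Finset V} {s : ℤ} (hsA : HasSign (K : Set (Finset V)) Φ oK oL A s)
    (hsB : HasSign (K : Set (Finset V)) Φ oK oL B s) (hA : A ∈ K) (hB : B ∈ K)
    (hAB : (A ∩ B).card = 3) : NotReflected (K : Set (Finset V)) Φ A B := by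
  classical
  have hK' := IsNormalPM.isPM' hK
  have hL' := IsNormalPM.isPM' hL
  intro x hx u hu hu' y hy w hw
  have hBA : (B ∩ A).card = 3 := by rw [inter_comm]; exact hAB
  by_cases hxy : x = y
  · subst hxy
    have : w = u := Opp.unique hK' hL' hΦ hA hw hu
    rw [this]; exact hu'
  -- the third vertex of the ridge
  have h1 : (((A ∩ B).erase x).erase y).card = 1 := by
    rw [card_erase_of_mem (mem_erase.2 ⟨fun h => hxy h.symm, hy⟩), card_erase_of_mem hx, hAB]
  obtain ⟨z, hz⟩ := card_eq_one.1 h1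
  have hz' : z ∈ ((A ∩ B).erase x).erase y := by rw [hz]; simp
  rw [mem_erase, mem_erase] at hz'
  obtain ⟨hzy, hzx, hzAB⟩ := hz'
  have hxA := mem_inter.1 hx
  have hyA := mem_inter.1 hy
  have hzA := mem_inter.1 hzAB
  obtain ⟨a, haA, haB⟩ := exists_mem_sdiff hK'.card_facet hA hAB
  obtain ⟨b, hbB, hbA⟩ := exists_mem_sdiff hK'.card_facet hB hBA
  have hax : a ≠ x := fun h => haB (h ▸ hxA.2)
  have hay : a ≠ y := fun h => haB (h ▸ hyA.2)
  have haz : a ≠ z := fun h => haB (h ▸ hzA.2)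
  have hbx : b ≠ x := fun h => hbA (h ▸ hxA.1)
  have hby : b ≠ y := fun h => hbA (h ▸ hyA.1)
  have hbz : b ≠ z := fun h => hbA (h ▸ hzA.1)
  obtain ⟨ua, hua⟩ := Opp.exists hK' hL' hΦ hA haA
  obtain ⟨ub, hub⟩ := Opp.exists hK' hL' hΦ hB hbB
  obtain ⟨uz, huz⟩ := Opp.exists hK' hL' hΦ hA hzA.1
  obtain ⟨wy, hwy⟩ := Opp.exists hK' hL' hΦ hB hyA.2
  obtain ⟨wz, hwz⟩ := Opp.exists hK' hL' hΦ hB hzA.2
  -- the labels of the ridge are the same
  by_cases hww : wy = w
  · rw [← hww]; exact hwy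
  exfalso
  have hinjA : ∀ {p q : V} {s t : W}, Opp 3 (K : Set (Finset V)) Φ A p s →
      Opp 3 (K : Set (Finset V)) Φ A q t → p ≠ q → s ≠ t := by
    intro p q s t h2 h3 hne h4
    rw [h4] at h2
    exact hne (Opp.unique_left hK' hL' hΦ hA h2 h3)
  have hinjB : ∀ {p q : V} {s t : W}, Opp 3 (K : Set (Finset V)) Φ B p s →
      Opp 3 (K : Set (Finset V)) Φ B q t → p ≠ q → s ≠ t := by
    intro p q s t h2 h3 hne h4
    rw [h4] at h2
    exact hne (Opp.unique_left hK' hL' hΦ hB h2 h3)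
  have hthree : ∀ q ∈ A ∩ B, q = x ∨ q = y ∨ q = z := by
    intro q hq
    by_contra hcon
    push Not at hcon
    have : q ∈ ((A ∩ B).erase x).erase y :=
      mem_erase.2 ⟨hcon.2.1, mem_erase.2 ⟨hcon.1, hq⟩⟩
    rw [hz, mem_singleton] at this
    exact hcon.2.2 this
  -- every label of the ridge at `B` occurs at `A`
  have htr : ∀ q ∈ A ∩ B, ∀ s, Opp 3 (K : Set (Finset V)) Φ B q s →
      s = u ∨ s = w ∨ s = uz := by
    intro q hq s hs
    have h2 : s ∈ Φ A := (Opp.mem_adj hK' hL' hΦ hB hA hBA hs).1 (mem_inter.1 hq).1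
    obtain ⟨p, hp⟩ := Opp.exists_left hK' hL' hΦ hA h2
    have h3 : p ∈ B := (Opp.mem_adj hK' hL' hΦ hA hB hAB hp).2 hs.mem_right
    rcases hthree p (mem_inter.2 ⟨hp.mem_left, h3⟩) with rfl | rfl | rfl
    · exact Or.inl (Opp.unique hK' hL' hΦ hA hp hu)
    · exact Or.inr (Or.inl (Opp.unique hK' hL' hΦ hA hp hw))
    · exact Or.inr (Or.inr (Opp.unique hK' hL' hΦ hA hp huz))
  have e1 : wy = uz := by
    rcases htr y hy wy hwy with h | h | h
    · exact absurd h.symm (hinjB hu' hwy hxy)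
    · exact absurd h hww
    · exact h
  have e2 : wz = w := by
    rcases htr z hzAB wz hwz with h | h | h
    · exact absurd h (hinjB hwz hu' hzx)
    · exact h
    · exact absurd (h.trans e1.symm) (hinjB hwz hwy hzy)
  -- orderings
  have t1 : Function.Injective ![a, x, y, z] := inj4 hax hay haz hxy hzx.symm hzy.symm
  have t2 : Function.Injective ![b, x, y, z] := inj4 hbx hby hbz hxy hzx.symm hzy.symm
  have c1 : (Finset.univ.image ![a, x, y, z] : Finset V) = A :=
    image4 (hK'.card_facet A hA) t1 haA hxA.1 hyA.1 hzA.1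
  have c2 : (Finset.univ.image ![b, x, y, z] : Finset V) = B :=
    image4 (hK'.card_facet B hB) t2 hbB hxA.2 hyA.2 hzA.2
  have r1 := hsA ![a, x, y, z] ![ua, u, w, uz] t1 c1 (by
    intro i
    fin_cases i
    · exact hua
    · exact hu
    · exact hw
    · exact huz)
  have r2 := hsB ![b, x, y, z] ![ub, u, uz, w] t2 c2 (by
    intro i
    fin_cases i
    · exact hub
    · exact hu'
    · show Opp 3 (K : Set (Finset V)) Φ B y uz
      rw [← e1]; exact hwy
    · show Opp 3 (K : Set (Finset V)) Φ B z w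
      rw [← e2]; exact hwz)
  have g1 := hoK.glue ![a, x, y, z] t1 (by rw [c1]; exact hA) 0 b (by rw [c1]; exact hbA)
    (by rw [update4, c2]; exact hB)
  rw [update4] at g1
  -- the other side
  have hΦA : Φ A ∈ L := hΦ.mem hA
  have hΦB : Φ B ∈ L := hΦ.mem hB
  have s1 : Function.Injective ![ua, u, w, uz] :=
    inj4 (hinjA hua hu hax) (hinjA hua hw hay) (hinjA hua huz haz) (hinjA hu hw hxy)
      (hinjA hu huz hzx.symm) (hinjA hw huz hzy.symm)
  have d1 : (Finset.univ.image ![ua, u, w, uz] : Finset W) = Φ A :=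
    image4 (hL'.card_facet _ hΦA) s1 hua.mem_right hu.mem_right hw.mem_right huz.mem_right
  have hub' : ub ∉ Φ A := fun h => hbA ((Opp.mem_adj hK' hL' hΦ hB hA hBA hub).2 h)
  have s2 : Function.Injective ![ub, u, w, uz] :=
    inj4 (fun h => hub' (h ▸ hu.mem_right)) (fun h => hub' (h ▸ hw.mem_right))
      (fun h => hub' (h ▸ huz.mem_right)) (hinjA hu hw hxy)
      (hinjA hu huz hzx.symm) (hinjA hw huz hzy.symm)
  have d2 : (Finset.univ.image ![ub, u, w, uz] : Finset W) = Φ B :=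
    image4 (hL'.card_facet _ hΦB) s2 hub.mem_right hu'.mem_right (e2 ▸ hwz.mem_right)
      (e1 ▸ hwy.mem_right)
  have g2 := hoL.glue ![ua, u, w, uz] s1 (by rw [d1]; exact hΦA) 0 ub (by rw [d1]; exact hub')
    (by rw [update4, d2]; exact hΦB)
  rw [update4] at g2
  have g3 := hoL.swap ![ub, u, w, uz] s2 (by rw [d2]; exact hΦB) 2 3 (by decide)
  rw [swap4] at g3
  have g4 := hoL.sign ![ua, u, w, uz] s1 (by rw [d1]; exact hΦA)
  have g5 : oL ![ua, u, w, uz] = - oL ![ua, u, w, uz] := by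
    have g6 : oL ![ub, u, uz, w] = oL ![ua, u, w, uz] := by rw [g3, g2, neg_neg]
    calc oL ![ua, u, w, uz] = oL ![ub, u, uz, w] := g6.symm
      _ = s * oK ![b, x, y, z] := r2
      _ = - (s * oK ![a, x, y, z]) := by rw [g1]; ring
      _ = - oL ![ua, u, w, uz] := by rw [r1]
  omega

/-- The main theorem. -/
theorem main {K : Finset (Finset V)} {L : Finset (Finset W)} {Φ : Finset V → Finset W}
    (hK : IsNormalPM 3 (K : Set (Finset V))) (hL : IsNormalPM 3 (L : Set (Finset W)))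
    (hH1 : ∀ v, LinkH1Zero (K : Set (Finset V)) v) (hH2 : H2Zero L)
    {oK : (Fin 4 → V) → ℤ} {oL : (Fin 4 → W) → ℤ}
    (hoK : IsOrientation 3 (K : Set (Finset V)) oK) (hoL : IsOrientation 3 (L : Set (Finset W)) oL)
    (hΦ : DualIso 3 (K : Set (Finset V)) (L : Set (Finset W)) Φ)
    (hc : ∀ A ∈ K, ∀ T : Finset V, T ⊆ A → T.card = 3 → ∃ v ∈ T, ∀ C : Finset W, C.card = 2 →
      (∀ B ∈ K, C ⊆ Φ B → v ∈ B) →
      ∃ s, ∀ B ∈ K, C ⊆ Φ B → HasSign (K : Set (Finset V)) Φ oK oL B s) :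
    ∃ f : V → W, Set.InjOn f {x | ∃ A ∈ (K : Set (Finset V)), x ∈ A} ∧
      ∀ A ∈ (K : Set (Finset V)), Φ A = A.image f := by
  classical
  have hK' := IsNormalPM.isPM' hK
  have hL' := IsNormalPM.isPM' hL
  apply exists_map hK' hL' hΦ
  intro A hA B hB hAB
  obtain ⟨v, hvT, hv⟩ := hc A hA (A ∩ B) inter_subset_left hAB
  rw [mem_inter] at hvT
  obtain ⟨hvA, hvB⟩ := hvT
  -- the functions `φ`
  have hne : Nonempty W := by
    obtain ⟨u, -⟩ := Opp.exists hK' hL' hΦ hA hvA
    exact ⟨u⟩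
  have hex : ∀ A : Finset V, ∀ x : V, ∃ u : W, A ∈ K → x ∈ A →
      Opp 3 (K : Set (Finset V)) Φ A x u := by
    intro A x
    by_cases h : A ∈ K ∧ x ∈ A
    · obtain ⟨u, hu⟩ := Opp.exists hK' hL' hΦ h.1 h.2
      exact ⟨u, fun _ _ => hu⟩
    · exact ⟨Classical.choice hne, fun h1 h2 => absurd ⟨h1, h2⟩ h⟩
  choose φ hφ using hex
  have hφ' : ∀ A ∈ K, ∀ x ∈ A, ∀ u, Opp 3 (K : Set (Finset V)) Φ A x u → u = φ A x := by
    intro A hA x hx u hu
    exact Opp.unique hK' hL' hΦ hA hu (hφ A x hA hx)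
  have c : Ctx (K : Set (Finset V)) (L : Set (Finset W)) Φ φ v :=
    { hK := hK'
      hL := hL'
      hΦ := hΦ
      hφ := fun A hA x hx => hφ A x hA hx
      rot := by
        intro C hC X hX Y hY hCX hCY hXY x hx hxx y hy
        obtain ⟨s, hs⟩ := hv C hC.1 hC.2.2
        have hnr := notReflected_of_sign hK hL hΦ hoK hoL (hs X hX hCX) (hs Y hY hCY) hX hY hXY
        rw [mem_inter] at hx
        have h1 := hφ X x hX hx.1
        have h2 := hφ Y x hY hx.2
        rw [← hxx] at h2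
        have h3 := hnr x (mem_inter.2 hx) _ h1 h2
        rw [mem_inter] at hy
        exact hφ' Y hY y hy.2 _ (h3 y (mem_inter.2 hy) _ (hφ X y hX hy.1))
      edge := fun C _ A hA B hB hCA hCB => hL.connected C A hA B hB hCA hCB
      h1 := hH1 v }
  have hlab : ∀ o ∈ A ∩ B, o ≠ v → φ A o = φ B o := by
    intro o ho hov
    rw [mem_inter] at ho
    exact label_const hK hL hH2 c hA hB hvA hvB hov ho.1 ho.2
  have hlabv : φ A v = φ B v := by
    obtain ⟨x, hx, hxe⟩ := c.common hB hA (by rw [inter_comm]; exact hAB)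
      ((c.adj hA hB hAB hvA).1 hvB) (c.mem hA hvA)
    by_cases hxv : x = v
    · rw [hxv] at hxe
      exact hxe.symm
    · rw [mem_inter] at hx
      rw [← hlab x (mem_inter.2 ⟨hx.2, hx.1⟩) hxv] at hxe
      exact absurd (c.inj hA hx.2 hvA hxe) hxv
  intro y hy w hw
  have h1 := mem_inter.1 hy
  have h2 : w = φ A y := hφ' A hA y h1.1 w hw
  have h3 : φ A y = φ B y := by
    by_cases hyv : y = v
    · rw [hyv]; exact hlabv
    · exact hlab y hy hyv
  rw [h2, h3]
  exact hφ B y hB h1.2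

end Rot
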