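import Pool.Agent.Helper90.ROT.Mat

/-!
# Part A: number of components of labels <= number of closed pairs + 1
-/

namespace Rot

open Finset Matrix

variable {W : Type*} [DecidableEq W]

/-- Locally constant function with given values on the components. -/
noncomputable def locf (Q : Finset (Finset W)) {ι : Type*} [Fintype ι] (r : ι → Finset W × W)
    (a : ι → ZMod 2) (B : Finset W) (z : W) : ZMod 2 :=
  open Classical in
  ∑ i, if Relation.ReflTransGen (LAdj Q) (r i) (B, z) then a i else 0

theorem locf_adj {Q : Finset (Finset W)} {ι : Type*} [Fintype ι] (r : ι → Finset W × W)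
    (a : ι → ZMod 2) {B B' : Finset W} {z z' : W} (h : LAdj Q (B, z) (B', z')) :
    locf Q r a B z = locf Q r a B' z' := by
  classical
  unfold locf
  apply Finset.sum_congr rfl
  intro i _
  have : Relation.ReflTransGen (LAdj Q) (r i) (B, z) ↔
      Relation.ReflTransGen (LAdj Q) (r i) (B', z') :=
    ⟨fun h1 => h1.tail h, fun h1 => h1.tail h.symm⟩
  simp only [this]

theorem locf_rep {Q : Finset (Finset W)} {ι : Type*} [Fintype ι] (r : ι → Finset W × W)
    (hr : ∀ i j, Relation.ReflTransGen (LAdj Q) (r i) (r j) → i = j)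
    (a : ι → ZMod 2) (j : ι) : locf Q r a (r j).1 (r j).2 = a j := by
  classical
  unfold locf
  rw [Finset.sum_eq_single j]
  · rw [if_pos Relation.ReflTransGen.refl]
  · intro i _ hne
    rw [if_neg (fun h => hne (hr i j h))]
  · intro h
    exact absurd (mem_univ j) h

/-- The third ridge sum. -/
noncomputable def wk {Q : Finset (Finset W)} (k : ↥(YI Q) ⊕ ↥(YJ Q) → ZMod 2)
    (T : Finset W) : ZMod 2 := ∑ B ∈ Q.filter (fun B => T ⊆ B), uk k B T

theorem cycle_wk {L Q : Finset (Finset W)} (h : Setup L Q)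
    (k : ↥(YI Q) ⊕ ↥(YJ Q) → ZMod 2) (hk0 : (MM Q)ᵀ.mulVec k = 0) (e : Finset W)
    (he : e.card = 2) : ∑ T ∈ (ridges Q).filter (fun T => e ⊆ T), wk k T = 0 := by
  classical
  have h1 : ∑ T ∈ (ridges Q).filter (fun T => e ⊆ T), wk k T =
      ∑ T ∈ ridges Q, ∑ B ∈ Q, if (e ⊆ T ∧ T ⊆ B) then uk k B T else 0 := by
    rw [Finset.sum_filter]
    apply Finset.sum_congr rfl
    intro T hT
    unfold wk
    by_cases h1 : e ⊆ T
    · rw [if_pos h1, Finset.sum_filter]
      apply Finset.sum_congr rfl
      intro B hB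
      simp [h1]
    · rw [if_neg h1]
      symm
      apply Finset.sum_eq_zero
      intro B hB
      rw [if_neg (fun h2 => h1 h2.1)]
  have h2 : ∑ T ∈ inner Q, ∑ B ∈ Q, (if (e ⊆ T ∧ T ⊆ B) then hk k T e else 0) = 0 := by
    apply Finset.sum_eq_zero
    intro T hT
    by_cases h1 : e ⊆ T
    · have h3 : ∑ B ∈ Q, (if (e ⊆ T ∧ T ⊆ B) then hk k T e else 0) =
          ∑ B ∈ Q.filter (fun B => T ⊆ B), hk k T e := by
        rw [Finset.sum_filter]
        apply Finset.sum_congr rfl
        intro B hB
        simp [h1]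
      unfold inner at hT
      rw [mem_filter] at hT
      rw [h3, sum_const, hT.2, two_smul]
      exact CharTwo.add_self_eq_zero _
    · apply Finset.sum_eq_zero
      intro B hB
      rw [if_neg (fun h2 => h1 h2.1)]
  have h3 : ∑ T ∈ ridges Q, ∑ B ∈ Q, (if (e ⊆ T ∧ T ⊆ B) then uk k B T else 0) +
      ∑ T ∈ inner Q, ∑ B ∈ Q, (if (e ⊆ T ∧ T ⊆ B) then hk k T e else 0) = 0 := by
    rw [Finset.sum_comm (s := ridges Q), Finset.sum_comm (s := inner Q), ← Finset.sum_add_distrib]
    apply Finset.sum_eq_zero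
    intro B hB
    by_cases heB : e ⊆ B
    · refine Eq.trans ?_ (MM_transpose k hk0 hB heB he)
      rw [add_comm]
      congr 1
      · rw [Finset.sum_filter]
      · rw [← Finset.sum_filter]
        apply Finset.sum_congr _ (fun _ _ => rfl)
        ext T
        rw [mem_filter, mem_filter, Setup.mem_ridges, mem_powersetCard]
        constructor
        · rintro ⟨⟨B', -, -, h3⟩, h4, h5⟩
          exact ⟨⟨h5, h3⟩, h4⟩
        · rintro ⟨⟨h5, h3⟩, h4⟩
          exact ⟨⟨B, hB, h5, h3⟩, h4, h5⟩
    · rw [Finset.sum_eq_zero, Finset.sum_eq_zero, add_zero]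
      · intro T _
        rw [if_neg (fun h2 => heB (h2.1.trans h2.2))]
      · intro T _
        rw [if_neg (fun h2 => heB (h2.1.trans h2.2))]
  rw [h2, add_zero] at h3
  rw [h1, h3]

/-- `k` restricted to one edge: a combination with zero sums at all facets of `Q` vanishes if it
vanishes at one place, or if the edge is not closed. -/
theorem vanish {L Q : Finset (Finset W)} (h : Setup L Q) {e : Finset W} (he : e.card = 2)
    (d : Finset W → ZMod 2) (hd0 : ∀ T, T ∉ inner Q → d T = 0)
    (hd : ∀ B ∈ Q, e ⊆ B → ∑ T ∈ (B.powersetCard 3).filter (fun T => e ⊆ T), d T = 0)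
    (hs : (∃ B ∈ L, e ⊆ B ∧ B ∉ Q) ∨ ∃ T ∈ inner Q, e ⊆ T ∧ d T = 0)
    {T : Finset W} (hT : T ∈ inner Q) (heT : e ⊆ T) : d T = 0 := by
  -- the two ridges of a facet have the same value
  have hout : ∀ B ∈ L, B ∉ Q → ∀ T', T' ⊆ B → d T' = 0 := by
    intro B hB hBQ T' hT'
    apply hd0
    intro h1
    have h3 := Setup.inner_card_three h1
    obtain ⟨A₁, hA₁, A₂, hA₂, hne, hs1, hs2, hfil, hint⟩ := h.exists_pair h1
    obtain ⟨Y, -, hY⟩ := h.ridge A₁ (h.sub hA₁) T' hs1 h3
    have h5 : B = Y := hY B ⟨hB, fun h => hBQ (h ▸ hA₁), hT'⟩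
    have h6 : A₂ = Y := hY A₂ ⟨h.sub hA₂, hne.symm, hs2⟩
    exact hBQ (by rw [h5, ← h6]; exact hA₂)
  have key : ∀ B ∈ L, e ⊆ B → ∀ T₁ T₂, T₁ ⊆ B → T₂ ⊆ B → T₁.card = 3 → T₂.card = 3 → e ⊆ T₁ →
      e ⊆ T₂ → d T₁ = 0 → d T₂ = 0 := by
    intro B hB heB T₁ T₂ h1 h2 h3 h4 h5 h6 h7
    by_cases hBQ : B ∈ Q
    · by_cases hne : T₁ = T₂
      · rw [← hne]; exact h7
      · have h8 : (B.powersetCard 3).filter (fun T => e ⊆ T) = {T₁, T₂} := by
          have hcB := h.card B hB
          -- both sides have two elements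
          have h9 : ({T₁, T₂} : Finset (Finset W)) ⊆ (B.powersetCard 3).filter (fun T => e ⊆ T) := by
            intro X hX
            rw [mem_insert, mem_singleton] at hX
            rw [mem_filter, mem_powersetCard]
            rcases hX with rfl | rfl
            · exact ⟨⟨h1, h3⟩, h5⟩
            · exact ⟨⟨h2, h4⟩, h6⟩
          symm
          apply eq_of_subset_of_card_le h9
          rw [card_pair hne]
          have h10 : ((B.powersetCard 3).filter (fun T => e ⊆ T)).card ≤ (B \ e).card := by
            apply card_le_card_of_injOn (fun T => if hT : (B \ T).Nonempty then hT.choose else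
              (card_pos.1 (by rw [hcB]; norm_num : 0 < B.card)).choose)
            · intro X hX
              rw [mem_coe, mem_filter, mem_powersetCard] at hX
              have hne' : (B \ X).Nonempty := by
                rw [← card_pos, card_sdiff_of_subset hX.1.1, hcB, hX.1.2]; norm_num
              simp only [hne', dif_pos]
              have := hne'.choose_spec
              rw [mem_sdiff] at this
              rw [mem_coe, mem_sdiff]
              exact ⟨this.1, fun h => this.2 (hX.2 h)⟩
            · intro X hX Y hY hXY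
              rw [mem_coe, mem_filter, mem_powersetCard] at hX hY
              have hneX : (B \ X).Nonempty := by
                rw [← card_pos, card_sdiff_of_subset hX.1.1, hcB, hX.1.2]; norm_num
              have hneY : (B \ Y).Nonempty := by
                rw [← card_pos, card_sdiff_of_subset hY.1.1, hcB, hY.1.2]; norm_num
              simp only [hneX, hneY, dif_pos] at hXY
              have e1 : ∀ Z : Finset W, Z ⊆ B → Z.card = 3 → ∀ (hZ : (B \ Z).Nonempty),
                  Z = B.erase hZ.choose := by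
                intro Z hZB hZc hZ
                have := hZ.choose_spec
                rw [mem_sdiff] at this
                apply eq_of_subset_of_card_le
                · intro z hz
                  exact mem_erase.2 ⟨fun h => this.2 (h ▸ hz), hZB hz⟩
                · rw [card_erase_of_mem this.1, hcB, hZc]
              rw [e1 X hX.1.1 hX.1.2 hneX, e1 Y hY.1.1 hY.1.2 hneY, hXY]
          rw [card_sdiff_of_subset heB, hcB, he] at h10
          exact h10
        have h9 := hd B hBQ heB
        rw [h8, sum_pair hne, h7, zero_add] at h9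
        exact h9
    · exact hout B hB hBQ T₂ h2
  -- chain
  have chain : ∀ A ∈ L, e ⊆ A → (∀ T', T' ⊆ A → T'.card = 3 → e ⊆ T' → d T' = 0) → ∀ B ∈ L,
      e ⊆ B → ∀ T', T' ⊆ B → T'.card = 3 → e ⊆ T' → d T' = 0 := by
    intro A hA heA hPA B hB heB
    have hch := h.edge e he A hA B hB heA heB
    clear hB heB
    induction hch with
    | refl => exact hPA
    | @tail C D hAC hCD ih =>
      intro T' hT' hc' heT'
      have hCe : C ∈ L ∧ e ⊆ C := by
        rcases Relation.ReflTransGen.cases_tail hAC with h1 | ⟨E, -, h1⟩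
        · rw [h1]; exact ⟨hA, heA⟩
        · exact ⟨h1.1, h1.2.1⟩
      have h1 : d (C ∩ D) = 0 :=
        ih (C ∩ D) inter_subset_left hCD.2.2 (subset_inter hCe.2 hCD.2.1)
      exact key D hCD.1 hCD.2.1 (C ∩ D) T' inter_subset_right hT' hCD.2.2 hc'
        (subset_inter hCe.2 hCD.2.1) heT' h1
  obtain ⟨A, hA, -, -, -, hTA, -⟩ := h.exists_pair hT
  have h3 := Setup.inner_card_three hT
  rcases hs with ⟨B, hB, heB, hBQ⟩ | ⟨T₀, hT₀, heT₀, hd0'⟩
  · exact chain B hB heB (fun T' hT' _ _ => hout B hB hBQ T' hT') A (h.sub hA)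
      (heT.trans hTA) T hTA h3 heT
  · obtain ⟨B, hB, -, -, -, hTB, -⟩ := h.exists_pair hT₀
    have h5 := Setup.inner_card_three hT₀
    exact chain B (h.sub hB) (heT₀.trans hTB)
      (fun T' hT' hc' he' => key B (h.sub hB) (heT₀.trans hTB) T₀ T' hTB hT' h5 hc' heT₀ he' hd0')
      A (h.sub hA) (heT.trans hTA) T hTA h3 heT

end Rot
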