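import Mathlib

/-!
# A counting form of rank = rank of the transpose over the field with two elements
-/

namespace Rot

open Matrix

theorem card_ker_mul {X Y : Type*} [Fintype X] [Fintype Y] [DecidableEq X] [DecidableEq Y]
    (M : Matrix Y X (ZMod 2)) :
    Nat.card (LinearMap.ker M.mulVecLin) * 2 ^ Fintype.card Y =
      Nat.card (LinearMap.ker Mᵀ.mulVecLin) * 2 ^ Fintype.card X := by
  haveI : Fact (Nat.Prime 2) := ⟨Nat.prime_two⟩
  have h1 := LinearMap.finrank_range_add_finrank_ker M.mulVecLin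
  have h2 := LinearMap.finrank_range_add_finrank_ker Mᵀ.mulVecLin
  rw [Module.finrank_fintype_fun_eq_card] at h1 h2
  have h3 : Module.finrank (ZMod 2) (LinearMap.range M.mulVecLin) =
      Module.finrank (ZMod 2) (LinearMap.range Mᵀ.mulVecLin) := by
    have := Matrix.rank_transpose M
    unfold Matrix.rank at this
    exact this.symm
  have c1 : Nat.card (LinearMap.ker M.mulVecLin) =
      2 ^ Module.finrank (ZMod 2) (LinearMap.ker M.mulVecLin) := by
    have := Module.natCard_eq_pow_finrank (K := ZMod 2) (V := LinearMap.ker M.mulVecLin)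
    rw [this, Nat.card_zmod]
  have c2 : Nat.card (LinearMap.ker Mᵀ.mulVecLin) =
      2 ^ Module.finrank (ZMod 2) (LinearMap.ker Mᵀ.mulVecLin) := by
    have := Module.natCard_eq_pow_finrank (K := ZMod 2) (V := LinearMap.ker Mᵀ.mulVecLin)
    rw [this, Nat.card_zmod]
  rw [c1, c2, ← pow_add, ← pow_add]
  congr 1
  omega

/-- If a set `A` embeds in (kernel of `M`) x (two elements) and the kernel of the transpose embeds
in `D`, then the sizes are related. -/
theorem card_bound {X Y : Type*} [Fintype X] [Fintype Y] [DecidableEq X] [DecidableEq Y]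
    (M : Matrix Y X (ZMod 2)) {A D : Type*} [Finite D]
    (φ : A → (X → ZMod 2) × ZMod 2) (hi : Function.Injective φ)
    (hφ : ∀ a, M.mulVec (φ a).1 = 0) (ψ : (Y → ZMod 2) → D)
    (hψ : ∀ h h', Mᵀ.mulVec h = 0 → Mᵀ.mulVec h' = 0 → ψ h = ψ h' → h = h') :
    Nat.card A * 2 ^ Fintype.card Y ≤ 2 * Nat.card D * 2 ^ Fintype.card X := by
  haveI : Fact (Nat.Prime 2) := ⟨Nat.prime_two⟩
  have h1 : Nat.card A ≤ Nat.card (LinearMap.ker M.mulVecLin × ZMod 2) := by
    apply Nat.card_le_card_of_injective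
      (fun a => ((⟨(φ a).1, by rw [LinearMap.mem_ker]; exact hφ a⟩ : LinearMap.ker M.mulVecLin),
        (φ a).2))
    intro a b hab
    apply hi
    simp only [Prod.mk.injEq, Subtype.mk.injEq] at hab
    exact Prod.ext hab.1 hab.2
  have h2 : Nat.card (LinearMap.ker Mᵀ.mulVecLin) ≤ Nat.card D := by
    apply Nat.card_le_card_of_injective (fun h : LinearMap.ker Mᵀ.mulVecLin => ψ h.1)
    intro a b hab
    apply Subtype.ext
    exact hψ _ _ a.2 b.2 hab
  rw [Nat.card_prod, Nat.card_zmod] at h1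
  have h3 := card_ker_mul M
  calc Nat.card A * 2 ^ Fintype.card Y
      ≤ (Nat.card (LinearMap.ker M.mulVecLin) * 2) * 2 ^ Fintype.card Y :=
        Nat.mul_le_mul_right _ h1
    _ = 2 * (Nat.card (LinearMap.ker M.mulVecLin) * 2 ^ Fintype.card Y) := by ring
    _ = 2 * (Nat.card (LinearMap.ker Mᵀ.mulVecLin) * 2 ^ Fintype.card X) := by rw [h3]
    _ ≤ 2 * (Nat.card D * 2 ^ Fintype.card X) :=
        Nat.mul_le_mul_left _ (Nat.mul_le_mul_right _ h2)
    _ = 2 * Nat.card D * 2 ^ Fintype.card X := by ring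

end Rot
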